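import Mathlib

set_option autoImplicit false
set_option linter.unusedSectionVars false

/-!
Averaging operators on a finite abelian group, and the interpolation inequality used for
functions on a discrete torus with values in `ℓ₄`.
-/

namespace Pool.Agent.LqEmb

open Finset

variable {G ι : Type} [AddCommGroup G] [Fintype G] [DecidableEq ι]
variable {E : Type} [AddCommGroup E] [Module ℝ E]

/-- Average of `w` over the shifts by the sums of the subfamilies of `(e c)_{c ∈ s}`. -/
noncomputable def avg (e : ι → G) (s : Finset ι) (w : G → E) : G → E := fun y =>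
  ((1 / 2 : ℝ) ^ s.card) • ∑ B ∈ s.powerset, w (y + ∑ c ∈ B, e c)

theorem avg_empty (e : ι → G) (w : G → E) : avg e ∅ w = w := by
  funext y
  simp [avg]

theorem avg_insert (e : ι → G) {s : Finset ι} {c : ι} (hc : c ∉ s) (w : G → E) (y : G) :
    avg e (insert c s) w y = (1 / 2 : ℝ) • (avg e s w y + avg e s w (y + e c)) := by
  unfold avg
  rw [Finset.sum_powerset_insert hc, card_insert_of_notMem hc, pow_succ]
  have h : ∑ t ∈ s.powerset, w (y + ∑ c' ∈ insert c t, e c') =
      ∑ t ∈ s.powerset, w (y + e c + ∑ c' ∈ t, e c') := by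
    refine Finset.sum_congr rfl fun t ht => ?_
    have : c ∉ t := fun h => hc (Finset.mem_powerset.1 ht h)
    rw [Finset.sum_insert this, add_assoc]
  rw [h, ← smul_add, smul_smul]
  congr 1
  ring

theorem avg_shift (e : ι → G) (s : Finset ι) (w : G → E) (h y : G) :
    avg e s (fun z => w (z + h)) y = avg e s w (y + h) := by
  unfold avg
  congr 1
  refine Finset.sum_congr rfl fun t _ => ?_
  rw [add_right_comm]

theorem avg_sub (e : ι → G) (s : Finset ι) (v w : G → E) (y : G) :
    avg e s (fun z => v z - w z) y = avg e s v y - avg e s w y := by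
  unfold avg
  rw [Finset.sum_sub_distrib, smul_sub]

theorem avg_add (e : ι → G) (s : Finset ι) (v w : G → E) (y : G) :
    avg e s (fun z => v z + w z) y = avg e s v y + avg e s w y := by
  unfold avg
  rw [Finset.sum_add_distrib, smul_add]

theorem avg_const (e : ι → G) (s : Finset ι) (a : E) (y : G) :
    avg e s (fun _ => a) y = a := by
  unfold avg
  rw [Finset.sum_const, card_powerset, ← Nat.cast_smul_eq_nsmul ℝ, smul_smul]
  have : (1 / 2 : ℝ) ^ s.card * ((2 ^ s.card : ℕ) : ℝ) = 1 := by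
    push_cast
    rw [← mul_pow]
    norm_num
  rw [this, one_smul]

section Scalar

/-- The square of the `L₂` norm. -/
noncomputable def nsq (w : G → ℝ) : ℝ := ∑ y, (w y) ^ 2

theorem nsq_nonneg (w : G → ℝ) : 0 ≤ nsq w := Finset.sum_nonneg fun _ _ => sq_nonneg _

theorem nsq_shift (w : G → ℝ) (h : G) : nsq (fun y => w (y + h)) = nsq w := by
  unfold nsq
  exact Fintype.sum_equiv (Equiv.addRight h) _ _ fun y => rfl

/-- The shift difference. -/
def dif (h : G) (w : G → ℝ) : G → ℝ := fun y => w (y + h) - w y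

theorem nsq_half (w : G → ℝ) (h : G) :
    nsq (fun y => (1 / 2 : ℝ) * (w y + w (y + h))) = nsq w - 1 / 4 * nsq (dif h w) := by
  have h1 := nsq_shift w h
  unfold nsq dif at *
  have h2 : ∀ y, ((1 / 2 : ℝ) * (w y + w (y + h))) ^ 2 =
      1 / 2 * (w y) ^ 2 + 1 / 2 * (w (y + h)) ^ 2 - 1 / 4 * (w (y + h) - w y) ^ 2 := by
    intro y; ring
  simp only [h2, Finset.sum_sub_distrib, Finset.sum_add_distrib, ← Finset.mul_sum, h1]
  ring

theorem avg_insert' (e : ι → G) {s : Finset ι} {c : ι} (hc : c ∉ s) (w : G → ℝ) :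
    avg e (insert c s) w = fun y => (1 / 2 : ℝ) * (avg e s w y + avg e s w (y + e c)) := by
  funext y
  rw [avg_insert e hc w y, smul_eq_mul]

theorem dif_avg (e : ι → G) (s : Finset ι) (w : G → ℝ) (h : G) :
    dif h (avg e s w) = avg e s (dif h w) := by
  funext y
  unfold dif
  rw [avg_sub, avg_shift]

theorem nsq_avg_le (e : ι → G) (s : Finset ι) (w : G → ℝ) : nsq (avg e s w) ≤ nsq w := by
  induction s using Finset.induction_on with
  | empty => rw [avg_empty]
  | insert c s hc ih =>
    rw [avg_insert' e hc, nsq_half]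
    have := nsq_nonneg (dif (e c) (avg e s w))
    linarith

/-- The basic energy inequality. -/
theorem energy (e : ι → G) (s : Finset ι) (w : G → ℝ) :
    1 / 4 * ∑ c ∈ s, nsq (dif (e c) (avg e s w)) ≤ nsq w - nsq (avg e s w) := by
  induction s using Finset.induction_on with
  | empty => simp [avg_empty]
  | insert c s hc ih =>
    have h1 : nsq (avg e (insert c s) w) = nsq (avg e s w) - 1 / 4 * nsq (dif (e c) (avg e s w)) := by
      rw [avg_insert' e hc, nsq_half]
    have h2 : ∀ h : G, nsq (dif h (avg e (insert c s) w)) ≤ nsq (dif h (avg e s w)) := by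
      intro h
      rw [dif_avg e (insert c s) w h, dif_avg e s w h, avg_insert' e hc, nsq_half]
      have := nsq_nonneg (dif (e c) (avg e s (dif h w)))
      linarith
    rw [Finset.sum_insert hc]
    have h3 : ∑ x ∈ s, nsq (dif (e x) (avg e (insert c s) w)) ≤
        ∑ x ∈ s, nsq (dif (e x) (avg e s w)) := Finset.sum_le_sum fun x _ => h2 (e x)
    have h4 := h2 (e c)
    linarith

/-- A shift by `k • h` is controlled by `k` shifts by `h`. -/
theorem nsq_dif_nsmul (h : G) (k : ℕ) (w : G → ℝ) :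
    nsq (dif (k • h) w) ≤ (k : ℝ) ^ 2 * nsq (dif h w) := by
  have hpt : ∀ y, dif (k • h) w y = ∑ j ∈ range k, dif h w (y + j • h) := by
    intro y
    induction k with
    | zero => simp [dif]
    | succ k ih =>
      rw [Finset.sum_range_succ, ← ih]
      unfold dif
      rw [succ_nsmul, add_assoc y (k • h) h]
      ring
  have hcs : ∀ y, (dif (k • h) w y) ^ 2 ≤ (k : ℝ) * ∑ j ∈ range k, (dif h w (y + j • h)) ^ 2 := by
    intro y
    rw [hpt y]
    have := sq_sum_le_card_mul_sum_sq (s := range k) (f := fun j => dif h w (y + j • h))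
    simpa using this
  calc nsq (dif (k • h) w) = ∑ y, (dif (k • h) w y) ^ 2 := rfl
    _ ≤ ∑ y, (k : ℝ) * ∑ j ∈ range k, (dif h w (y + j • h)) ^ 2 :=
        Finset.sum_le_sum fun y _ => hcs y
    _ = (k : ℝ) * ∑ j ∈ range k, nsq (fun y => dif h w (y + j • h)) := by
        rw [← Finset.mul_sum, Finset.sum_comm]
        rfl
    _ = (k : ℝ) * ∑ j ∈ range k, nsq (dif h w) := by
        congr 1
        exact Finset.sum_congr rfl fun j _ => nsq_shift _ _
    _ = (k : ℝ) ^ 2 * nsq (dif h w) := by
        rw [Finset.sum_const, card_range, nsmul_eq_mul]; ring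

variable [Fintype ι]

/-- The averaging operator over all coordinates. -/
noncomputable def T (e : ι → G) {E : Type} [AddCommGroup E] [Module ℝ E] (w : G → E) : G → E :=
  avg e univ w

theorem step (e : ι → G) (k : ℕ) (w : G → ℝ) :
    ∑ c, nsq (dif (k • e c) (T e w)) ≤ 4 * (k : ℝ) ^ 2 * (nsq w - nsq (T e w)) := by
  have h1 := energy e univ w
  have h2 : ∑ c, nsq (dif (k • e c) (T e w)) ≤
      ∑ c, (k : ℝ) ^ 2 * nsq (dif (e c) (T e w)) :=
    Finset.sum_le_sum fun c _ => nsq_dif_nsmul _ _ _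
  rw [← Finset.mul_sum] at h2
  have h3 : (0 : ℝ) ≤ (k : ℝ) ^ 2 := sq_nonneg _
  have h4 : ∑ c, nsq (dif (e c) (T e w)) ≤ 4 * (nsq w - nsq (T e w)) := by
    have : T e w = avg e univ w := rfl
    rw [this]
    linarith
  calc _ ≤ _ := h2
    _ ≤ (k : ℝ) ^ 2 * (4 * (nsq w - nsq (T e w))) := mul_le_mul_of_nonneg_left h4 h3
    _ = _ := by ring

/-- The `L₂` estimate after `m` steps. -/
theorem l2_bound (e : ι → G) (k m : ℕ) (w : G → ℝ) :
    (m : ℝ) * ∑ c, nsq (dif (k • e c) ((T e)^[m] w)) ≤ 4 * (k : ℝ) ^ 2 * nsq w := by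
  -- monotonicity in `m`
  have hmono : ∀ j, ∑ c, nsq (dif (k • e c) ((T e)^[j + 1] w)) ≤
      ∑ c, nsq (dif (k • e c) ((T e)^[j] w)) := by
    intro j
    refine Finset.sum_le_sum fun c _ => ?_
    rw [Function.iterate_succ_apply']
    have : T e ((T e)^[j] w) = avg e univ ((T e)^[j] w) := rfl
    rw [this, dif_avg]
    exact nsq_avg_le _ _ _
  have hmono' : Antitone fun j => ∑ c, nsq (dif (k • e c) ((T e)^[j] w)) :=
    antitone_nat_of_succ_le hmono
  have hsum : ∀ m : ℕ, ∑ j ∈ range m, ∑ c, nsq (dif (k • e c) ((T e)^[j + 1] w)) ≤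
      4 * (k : ℝ) ^ 2 * (nsq w - nsq ((T e)^[m] w)) := by
    intro m
    induction m with
    | zero => simp
    | succ m ih =>
      rw [Finset.sum_range_succ]
      have h1 := step e k ((T e)^[m] w)
      rw [← Function.iterate_succ_apply' (T e) m w] at h1
      linarith
  have h1 : (m : ℝ) * ∑ c, nsq (dif (k • e c) ((T e)^[m] w)) ≤
      ∑ j ∈ range m, ∑ c, nsq (dif (k • e c) ((T e)^[j + 1] w)) := by
    have : ∑ j ∈ range m, ∑ c, nsq (dif (k • e c) ((T e)^[m] w)) ≤
        ∑ j ∈ range m, ∑ c, nsq (dif (k • e c) ((T e)^[j + 1] w)) := by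
      refine Finset.sum_le_sum fun j hj => hmono' ?_
      have := Finset.mem_range.1 hj
      omega
    simpa using this
  have h2 := hsum m
  have h3 := nsq_nonneg ((T e)^[m] w)
  have h4 : (0 : ℝ) ≤ 4 * (k : ℝ) ^ 2 := by positivity
  nlinarith [mul_nonneg h4 h3]

end Scalar

end Pool.Agent.LqEmb
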