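import Mathlib
import Pool.Agent.LqEmb.FiniteIneq

set_option autoImplicit false
set_option linter.unusedSectionVars false

/-!
The `L₄` estimate for the iterated averaging operators, by real interpolation.
-/

namespace Pool.Agent.LqEmb

open Finset

section Integrals

theorem int_soft (a S : ℝ) (ha : 0 ≤ a) (haS : a ≤ S) :
    ∫ t in (0 : ℝ)..S, t * (max (a - t) 0) ^ 2 = a ^ 4 / 12 := by
  have hc : Continuous fun t : ℝ => t * (max (a - t) 0) ^ 2 := by fun_prop
  rw [← intervalIntegral.integral_add_adjacent_intervals (hc.intervalIntegrable 0 a)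
    (hc.intervalIntegrable a S)]
  have h1 : ∫ t in (0 : ℝ)..a, t * (max (a - t) 0) ^ 2 = a ^ 4 / 12 := by
    have h2 : ∫ t in (0 : ℝ)..a, t * (max (a - t) 0) ^ 2 =
        ∫ t in (0 : ℝ)..a, (a ^ 2 * t - 2 * a * t ^ 2 + t ^ 3) := by
      refine intervalIntegral.integral_congr fun t ht => ?_
      rw [Set.uIcc_of_le ha] at ht
      have : max (a - t) 0 = a - t := max_eq_left (by linarith [ht.2])
      simp only [this]
      ring
    rw [h2, intervalIntegral.integral_add, intervalIntegral.integral_sub,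
      intervalIntegral.integral_const_mul, intervalIntegral.integral_const_mul, integral_id,
      integral_pow, integral_pow]
    · norm_num
      ring
    all_goals exact Continuous.intervalIntegrable (by fun_prop) _ _
  have h3 : ∫ t in a..S, t * (max (a - t) 0) ^ 2 = 0 := by
    have h2 : ∫ t in a..S, t * (max (a - t) 0) ^ 2 = ∫ t in a..S, (0 : ℝ) := by
      refine intervalIntegral.integral_congr fun t ht => ?_
      rw [Set.uIcc_of_le haS] at ht
      have : max (a - t) 0 = 0 := max_eq_right (by linarith [ht.1])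
      simp only [this]
      ring
    rw [h2, intervalIntegral.integral_zero]
  rw [h1, h3, add_zero]

theorem int_soft2 (a S : ℝ) (ha : 0 ≤ a) (haS : a ≤ S) :
    ∫ t in (0 : ℝ)..S, t * (max (a - 2 * t) 0) ^ 2 = a ^ 4 / 48 := by
  have h1 : ∀ t : ℝ, t * (max (a - 2 * t) 0) ^ 2 =
      (fun x : ℝ => 1 / 2 * (x * (max (a - x) 0) ^ 2)) (2 * t) := by
    intro t; simp only []; ring
  have h2 : ∫ t in (0 : ℝ)..S, t * (max (a - 2 * t) 0) ^ 2 =
      ∫ t in (0 : ℝ)..S, (fun x : ℝ => 1 / 2 * (x * (max (a - x) 0) ^ 2)) (2 * t) :=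
    intervalIntegral.integral_congr fun t _ => h1 t
  rw [h2, intervalIntegral.integral_comp_mul_left
    (fun x : ℝ => 1 / 2 * (x * (max (a - x) 0) ^ 2)) (two_ne_zero), mul_zero,
    intervalIntegral.integral_const_mul, int_soft a (2 * S) ha (by linarith)]
  rw [smul_eq_mul]
  ring

end Integrals

variable {G ι : Type} [AddCommGroup G] [Fintype G] [DecidableEq ι]

theorem avg_abs_le (e : ι → G) (s : Finset ι) (w : G → ℝ) (t : ℝ) (h : ∀ y, |w y| ≤ t) (y : G) :
    |avg e s w y| ≤ t := by
  revert y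
  induction s using Finset.induction_on with
  | empty => intro y; rw [avg_empty]; exact h y
  | insert c s hc ih =>
    intro y
    rw [avg_insert e hc, smul_eq_mul]
    have h1 := abs_le.1 (ih y)
    have h2 := abs_le.1 (ih (y + e c))
    rw [abs_le]
    constructor <;> linarith [h1.1, h1.2, h2.1, h2.2]

variable [Fintype ι]

theorem T_iter_abs_le (e : ι → G) (m : ℕ) (w : G → ℝ) (t : ℝ) (h : ∀ y, |w y| ≤ t) (y : G) :
    |(T e)^[m] w y| ≤ t := by
  revert y
  induction m with
  | zero => exact h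
  | succ m ih =>
    intro y
    rw [Function.iterate_succ_apply']
    exact avg_abs_le e univ _ t ih y

theorem T_add {E : Type} [AddCommGroup E] [Module ℝ E] (e : ι → G) (v w : G → E) :
    T e (fun y => v y + w y) = fun y => T e v y + T e w y := by
  funext y
  exact avg_add e univ v w y

theorem T_sub {E : Type} [AddCommGroup E] [Module ℝ E] (e : ι → G) (v w : G → E) :
    T e (fun y => v y - w y) = fun y => T e v y - T e w y := by
  funext y
  exact avg_sub e univ v w y

theorem T_const {E : Type} [AddCommGroup E] [Module ℝ E] (e : ι → G) (a : E) :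
    T e (fun _ => a) = fun _ => a := by
  funext y
  exact avg_const e univ a y

theorem T_iter_add {E : Type} [AddCommGroup E] [Module ℝ E] (e : ι → G) (m : ℕ) (v w : G → E) :
    (T e)^[m] (fun y => v y + w y) = fun y => (T e)^[m] v y + (T e)^[m] w y := by
  induction m with
  | zero => rfl
  | succ m ih =>
    rw [Function.iterate_succ_apply', Function.iterate_succ_apply', Function.iterate_succ_apply',
      ih, T_add]

theorem T_iter_sub {E : Type} [AddCommGroup E] [Module ℝ E] (e : ι → G) (m : ℕ) (v w : G → E) :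
    (T e)^[m] (fun y => v y - w y) = fun y => (T e)^[m] v y - (T e)^[m] w y := by
  induction m with
  | zero => rfl
  | succ m ih =>
    rw [Function.iterate_succ_apply', Function.iterate_succ_apply', Function.iterate_succ_apply',
      ih, T_sub]

theorem T_iter_const {E : Type} [AddCommGroup E] [Module ℝ E] (e : ι → G) (m : ℕ) (a : E) :
    (T e)^[m] (fun _ => a) = fun _ => a := by
  induction m with
  | zero => rfl
  | succ m ih =>
    rw [Function.iterate_succ_apply', ih, T_const]

/-- soft thresholding -/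
noncomputable def soft (t x : ℝ) : ℝ := max (x - t) 0 - max (-x - t) 0

theorem soft_sq (t x : ℝ) (ht : 0 ≤ t) : (soft t x) ^ 2 = (max (|x| - t) 0) ^ 2 := by
  unfold soft
  rcases le_total 0 x with hx | hx
  · rw [abs_of_nonneg hx, max_eq_right (by linarith : -x - t ≤ 0), sub_zero]
  · rw [abs_of_nonpos hx, max_eq_right (by linarith : x - t ≤ 0)]
    ring

theorem sub_soft_abs (t x : ℝ) (ht : 0 ≤ t) : |x - soft t x| ≤ t := by
  unfold soft
  rw [abs_le]
  rcases le_total 0 x with hx | hx
  · rw [max_eq_right (by linarith : -x - t ≤ 0)]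
    rcases le_total x t with h | h
    · rw [max_eq_right (by linarith : x - t ≤ 0)]
      constructor <;> linarith
    · rw [max_eq_left (by linarith : 0 ≤ x - t)]
      constructor <;> linarith
  · rw [max_eq_right (by linarith : x - t ≤ 0)]
    rcases le_total (-x) t with h | h
    · rw [max_eq_right (by linarith : -x - t ≤ 0)]
      constructor <;> linarith
    · rw [max_eq_left (by linarith : 0 ≤ -x - t)]
      constructor <;> linarith

theorem trunc_bound (e : ι → G) (k m : ℕ) (w : G → ℝ) (t : ℝ) (ht : 0 ≤ t) :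
    (m : ℝ) * ∑ c, ∑ y, (max (|dif (k • e c) ((T e)^[m] w) y| - 2 * t) 0) ^ 2 ≤
      4 * (k : ℝ) ^ 2 * ∑ y, (max (|w y| - t) 0) ^ 2 := by
  set h : G → ℝ := fun y => soft t (w y) with hh
  set g : G → ℝ := fun y => w y - soft t (w y) with hg
  have hw : w = fun y => g y + h y := by
    funext y; simp [hh, hg]
  have h1 := l2_bound e k m h
  have h2 : nsq h = ∑ y, (max (|w y| - t) 0) ^ 2 := by
    unfold nsq
    exact Finset.sum_congr rfl fun y _ => soft_sq t (w y) ht
  rw [h2] at h1
  refine le_trans ?_ h1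
  refine mul_le_mul_of_nonneg_left ?_ (Nat.cast_nonneg m)
  refine Finset.sum_le_sum fun c _ => ?_
  unfold nsq
  refine Finset.sum_le_sum fun y _ => ?_
  have h3 : dif (k • e c) ((T e)^[m] w) y =
      dif (k • e c) ((T e)^[m] g) y + dif (k • e c) ((T e)^[m] h) y := by
    conv_lhs => rw [hw]
    rw [T_iter_add]
    unfold dif
    ring
  have h4 : |dif (k • e c) ((T e)^[m] g) y| ≤ 2 * t := by
    have hgb : ∀ y, |g y| ≤ t := fun y => sub_soft_abs t (w y) ht
    have h5 := abs_le.1 (T_iter_abs_le e m g t hgb y)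
    have h6 := abs_le.1 (T_iter_abs_le e m g t hgb (y + k • e c))
    unfold dif
    rw [abs_le]
    constructor <;> linarith [h5.1, h5.2, h6.1, h6.2]
  have h7 : |dif (k • e c) ((T e)^[m] w) y| - 2 * t ≤ |dif (k • e c) ((T e)^[m] h) y| := by
    rw [h3]
    have := abs_add_le (dif (k • e c) ((T e)^[m] g) y) (dif (k • e c) ((T e)^[m] h) y)
    linarith
  rw [← sq_abs (dif (k • e c) ((T e)^[m] h) y)]
  refine pow_le_pow_left₀ (le_max_right _ _) ?_ 2
  exact max_le h7 (abs_nonneg _)

/-- The `L₄` estimate. -/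
theorem l4_bound (e : ι → G) (k m : ℕ) (w : G → ℝ) :
    (m : ℝ) * ∑ c, ∑ y, (dif (k • e c) ((T e)^[m] w) y) ^ 4 ≤
      16 * (k : ℝ) ^ 2 * ∑ y, (w y) ^ 4 := by
  -- a common bound for all the numbers involved
  obtain ⟨S, hS0, hS1, hS2⟩ : ∃ S : ℝ, 0 ≤ S ∧ (∀ c y, |dif (k • e c) ((T e)^[m] w) y| ≤ S) ∧
      ∀ y, |w y| ≤ S := by
    refine ⟨(∑ c, ∑ y, |dif (k • e c) ((T e)^[m] w) y|) + ∑ y, |w y|, ?_, ?_, ?_⟩
    · positivity
    · intro c y
      have h1 : |dif (k • e c) ((T e)^[m] w) y| ≤ ∑ y, |dif (k • e c) ((T e)^[m] w) y| :=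
        Finset.single_le_sum (f := fun y => |dif (k • e c) ((T e)^[m] w) y|)
          (fun y _ => abs_nonneg _) (mem_univ y)
      have h2 : (∑ y, |dif (k • e c) ((T e)^[m] w) y|) ≤
          ∑ c, ∑ y, |dif (k • e c) ((T e)^[m] w) y| :=
        Finset.single_le_sum (f := fun c => ∑ y, |dif (k • e c) ((T e)^[m] w) y|)
          (fun c _ => Finset.sum_nonneg fun y _ => abs_nonneg _) (mem_univ c)
      have h3 : (0 : ℝ) ≤ ∑ y, |w y| := by positivity
      linarith
    · intro y
      have h1 : |w y| ≤ ∑ y, |w y| :=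
        Finset.single_le_sum (f := fun y => |w y|) (fun y _ => abs_nonneg _) (mem_univ y)
      have h3 : (0 : ℝ) ≤ ∑ c, ∑ y, |dif (k • e c) ((T e)^[m] w) y| := by positivity
      linarith
  have hL : ∫ t in (0 : ℝ)..S, (m : ℝ) * ∑ c, ∑ y,
      (t * (max (|dif (k • e c) ((T e)^[m] w) y| - 2 * t) 0) ^ 2) =
      (m : ℝ) * ∑ c, ∑ y, (dif (k • e c) ((T e)^[m] w) y) ^ 4 / 48 := by
    rw [intervalIntegral.integral_const_mul, intervalIntegral.integral_finsetSum]
    · congr 1
      refine Finset.sum_congr rfl fun c _ => ?_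
      rw [intervalIntegral.integral_finsetSum]
      · refine Finset.sum_congr rfl fun y _ => ?_
        rw [int_soft2 _ S (abs_nonneg _) (hS1 c y)]
        congr 1
        exact Even.pow_abs (by decide) _
      · intro y _
        exact Continuous.intervalIntegrable (by fun_prop) _ _
    · intro c _
      refine Continuous.intervalIntegrable ?_ _ _
      fun_prop
  have hR : ∫ t in (0 : ℝ)..S, (4 * (k : ℝ) ^ 2) * ∑ y, (t * (max (|w y| - t) 0) ^ 2) =
      (4 * (k : ℝ) ^ 2) * ∑ y, (w y) ^ 4 / 12 := by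
    rw [intervalIntegral.integral_const_mul, intervalIntegral.integral_finsetSum]
    · congr 1
      refine Finset.sum_congr rfl fun y _ => ?_
      rw [int_soft _ S (abs_nonneg _) (hS2 y)]
      congr 1
      exact Even.pow_abs (by decide) _
    · intro y _
      exact Continuous.intervalIntegrable (by fun_prop) _ _
  have hmono : ∫ t in (0 : ℝ)..S, (m : ℝ) * ∑ c, ∑ y,
      (t * (max (|dif (k • e c) ((T e)^[m] w) y| - 2 * t) 0) ^ 2) ≤
      ∫ t in (0 : ℝ)..S, (4 * (k : ℝ) ^ 2) * ∑ y, (t * (max (|w y| - t) 0) ^ 2) := by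
    refine intervalIntegral.integral_mono_on hS0 ?_ ?_ ?_
    · refine Continuous.intervalIntegrable ?_ _ _
      fun_prop
    · refine Continuous.intervalIntegrable ?_ _ _
      fun_prop
    · intro t ht
      have h1 := mul_le_mul_of_nonneg_left (trunc_bound e k m w t ht.1) ht.1
      have h2 : (m : ℝ) * ∑ c, ∑ y,
          (t * (max (|dif (k • e c) ((T e)^[m] w) y| - 2 * t) 0) ^ 2) =
          t * ((m : ℝ) * ∑ c, ∑ y,
          (max (|dif (k • e c) ((T e)^[m] w) y| - 2 * t) 0) ^ 2) := by
        simp only [← Finset.mul_sum]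
        ring
      have h3 : (4 * (k : ℝ) ^ 2) * ∑ y, (t * (max (|w y| - t) 0) ^ 2) =
          t * (4 * (k : ℝ) ^ 2 * ∑ y, (max (|w y| - t) 0) ^ 2) := by
        simp only [← Finset.mul_sum]
        ring
      rw [h2, h3]
      exact h1
  rw [hL, hR] at hmono
  simp only [← Finset.sum_div] at hmono
  linarith

end Pool.Agent.LqEmb
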