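import Mathlib
import Pool.Agent.LqEmb.Interp

set_option autoImplicit false
set_option linter.unusedSectionVars false

/-!
The vector valued (`ℓ₄`-valued) form of the averaging estimate, and the resulting inequality
about functions on a finite abelian group.
-/

namespace Pool.Agent.LqEmb

open Finset

/-- real `ℓ₄` -/
abbrev L4 : Type := lp (fun _ : ℕ => ℝ) 4

theorem toReal_four : (4 : ENNReal).toReal = ((4 : ℕ) : ℝ) := by
  simp

instance : Fact ((1 : ENNReal) ≤ 4) := ⟨by norm_num⟩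

theorem hasSum_four (v : L4) : HasSum (fun i => (v i) ^ 4) (‖v‖ ^ 4) := by
  have h := lp.hasSum_norm (p := 4) (by rw [toReal_four]; norm_num) v
  rw [toReal_four, Real.rpow_natCast] at h
  convert h using 2 with i
  rw [Real.rpow_natCast, Real.norm_eq_abs]
  exact (Even.pow_abs (by decide) _).symm

variable {G ι : Type} [AddCommGroup G] [Fintype G] [DecidableEq ι]

theorem avg_norm_sub_le {E : Type} [NormedAddCommGroup E] [NormedSpace ℝ E] (e : ι → G)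
    (s : Finset ι) (w : G → E) (a : E) (C : ℝ) (y : G)
    (h : ∀ B ∈ s.powerset, ‖w (y + ∑ c ∈ B, e c) - a‖ ≤ C) : ‖avg e s w y - a‖ ≤ C := by
  have h1 : avg e s w y - a = ((1 / 2 : ℝ) ^ s.card) •
      ∑ B ∈ s.powerset, (w (y + ∑ c ∈ B, e c) - a) := by
    have := avg_const e s a y
    conv_lhs => rw [← this]
    unfold avg
    rw [Finset.sum_sub_distrib, smul_sub]
  rw [h1, norm_smul]
  have h2 : ‖∑ B ∈ s.powerset, (w (y + ∑ c ∈ B, e c) - a)‖ ≤ (2 : ℝ) ^ s.card * C := by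
    refine (norm_sum_le _ _).trans ?_
    refine (Finset.sum_le_sum h).trans ?_
    rw [Finset.sum_const, card_powerset, nsmul_eq_mul]
    push_cast
    exact le_rfl
  have h3 : ‖(1 / 2 : ℝ) ^ s.card‖ = (1 / 2 : ℝ) ^ s.card := by
    rw [Real.norm_eq_abs, abs_of_nonneg (by positivity)]
  rw [h3]
  calc (1 / 2 : ℝ) ^ s.card * ‖∑ B ∈ s.powerset, (w (y + ∑ c ∈ B, e c) - a)‖
      ≤ (1 / 2 : ℝ) ^ s.card * ((2 : ℝ) ^ s.card * C) :=
        mul_le_mul_of_nonneg_left h2 (by positivity)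
    _ = C := by
        rw [← mul_assoc, ← mul_pow]
        norm_num

variable [Fintype ι]

theorem T_norm_le {E : Type} [NormedAddCommGroup E] [NormedSpace ℝ E] (e : ι → G)
    (w : G → E) (C : ℝ) (h : ∀ y, ‖w y‖ ≤ C) (y : G) : ‖T e w y‖ ≤ C := by
  have := avg_norm_sub_le e univ w 0 C y (fun B _ => by simpa using h _)
  simpa [T] using this

theorem T_sub_le {E : Type} [NormedAddCommGroup E] [NormedSpace ℝ E] (e : ι → G)
    (u : G → E) (C : ℝ) (h : ∀ y, ∀ B : Finset ι, ‖u (y + ∑ c ∈ B, e c) - u y‖ ≤ C) (y : G) :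
    ‖u y - T e u y‖ ≤ C := by
  rw [norm_sub_rev]
  exact avg_norm_sub_le e univ u (u y) C y (fun B _ => h y B)

theorem T_iter_sub_le {E : Type} [NormedAddCommGroup E] [NormedSpace ℝ E] (e : ι → G)
    (u : G → E) (C : ℝ) (h : ∀ y, ∀ B : Finset ι, ‖u (y + ∑ c ∈ B, e c) - u y‖ ≤ C) (m : ℕ)
    (y : G) : ‖u y - (T e)^[m] u y‖ ≤ m * C := by
  revert y
  induction m with
  | zero => intro y; simp
  | succ m ih =>
    intro y
    have h1 : u y - (T e)^[m + 1] u y = (u y - T e u y) +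
        T e (fun y => u y - (T e)^[m] u y) y := by
      rw [T_sub, Function.iterate_succ_apply']
      exact (sub_add_sub_cancel _ _ _).symm
    rw [h1]
    refine (norm_add_le _ _).trans ?_
    have h2 := T_sub_le e u C h y
    have h3 := T_norm_le e _ _ ih y
    push_cast
    linarith

theorem T_coord (e : ι → G) (w : G → L4) (i : ℕ) (y : G) :
    (T e w y) i = T e (fun y => w y i) y := by
  unfold T avg
  rw [lp.coeFn_smul, Pi.smul_apply, lp.coeFn_sum, Finset.sum_apply]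

theorem T_iter_coord (e : ι → G) (w : G → L4) (m : ℕ) (i : ℕ) (y : G) :
    ((T e)^[m] w y) i = (T e)^[m] (fun y => w y i) y := by
  revert y
  induction m with
  | zero => intro y; rfl
  | succ m ih =>
    intro y
    rw [Function.iterate_succ_apply', Function.iterate_succ_apply', T_coord]
    congr 1
    funext z
    exact ih z

theorem l4_bound_vec (e : ι → G) (k m : ℕ) (w : G → L4) :
    (m : ℝ) * ∑ c, ∑ y, ‖(T e)^[m] w (y + k • e c) - (T e)^[m] w y‖ ^ 4 ≤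
      16 * (k : ℝ) ^ 2 * ∑ y, ‖w y‖ ^ 4 := by
  have h1 : HasSum (fun i => (m : ℝ) * ∑ c, ∑ y,
      (((T e)^[m] w (y + k • e c) - (T e)^[m] w y) i) ^ 4)
      ((m : ℝ) * ∑ c, ∑ y, ‖(T e)^[m] w (y + k • e c) - (T e)^[m] w y‖ ^ 4) :=
    (hasSum_sum fun c _ => hasSum_sum fun y _ => hasSum_four _).mul_left _
  have h2 : HasSum (fun i => 16 * (k : ℝ) ^ 2 * ∑ y, ((w y) i) ^ 4)
      (16 * (k : ℝ) ^ 2 * ∑ y, ‖w y‖ ^ 4) :=
    (hasSum_sum fun y _ => hasSum_four _).mul_left _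
  refine hasSum_le (fun i => ?_) h1 h2
  have h3 := l4_bound e k m (fun y => w y i)
  refine le_trans (le_of_eq ?_) h3
  congr 1
  refine Finset.sum_congr rfl fun c _ => Finset.sum_congr rfl fun y _ => ?_
  rw [lp.coeFn_sub, Pi.sub_apply, T_iter_coord, T_iter_coord]
  rfl

theorem pow_four_le (a b c : ℝ) : (a + b + c) ^ 4 ≤ 27 * (a ^ 4 + b ^ 4 + c ^ 4) := by
  have h1 : (a + b + c) ^ 2 ≤ 3 * (a ^ 2 + b ^ 2 + c ^ 2) := by
    nlinarith [sq_nonneg (a - b), sq_nonneg (b - c), sq_nonneg (a - c)]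
  have h2 : (a ^ 2 + b ^ 2 + c ^ 2) ^ 2 ≤ 3 * (a ^ 4 + b ^ 4 + c ^ 4) := by
    nlinarith [sq_nonneg (a ^ 2 - b ^ 2), sq_nonneg (b ^ 2 - c ^ 2), sq_nonneg (a ^ 2 - c ^ 2)]
  have h3 : ((a + b + c) ^ 2) ^ 2 ≤ (3 * (a ^ 2 + b ^ 2 + c ^ 2)) ^ 2 :=
    pow_le_pow_left₀ (sq_nonneg _) h1 2
  nlinarith

/-- The finite inequality. -/
theorem fin_ineq [Nonempty ι] (e : ι → G) (k m : ℕ) (u : G → L4) (v : L4) (C D : ℝ)
    (h1 : ∀ y, ∀ B : Finset ι, ‖u (y + ∑ c ∈ B, e c) - u y‖ ≤ C)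
    (h2 : ∀ y, ‖u y - v‖ ^ 4 ≤ D) :
    ∃ (y : G) (c : ι), ‖u (y + k • e c) - u y‖ ^ 4 ≤
      27 * (16 * C ^ 4 + 16 * (k : ℝ) ^ 2 * ((m : ℝ) * C) ^ 4 / Fintype.card ι +
        16 * (k : ℝ) ^ 2 * D / (((m : ℝ) + 1) * Fintype.card ι)) := by
  have hM : (0 : ℝ) < Fintype.card ι := by exact_mod_cast Fintype.card_pos
  have hm1 : (0 : ℝ) < (m : ℝ) + 1 := by positivity
  set v1 : G → L4 := fun y => u y - T e u y with hv1
  set w2 : G → L4 := fun y => u y - (T e)^[m] u y with hw2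
  set w3 : G → L4 := fun y => u y - v with hw3
  -- the decomposition
  have hdec : ∀ y, u y - v = v1 y + T e w2 y + (T e)^[m + 1] w3 y := by
    intro y
    rw [hw3, T_iter_sub, T_iter_const, hw2, T_sub, hv1, Function.iterate_succ_apply']
    have h3 : (u y - T e u y) + (T e u y - T e ((T e)^[m] u) y) = u y - T e ((T e)^[m] u) y :=
      sub_add_sub_cancel _ _ _
    have h4 : (u y - T e ((T e)^[m] u) y) + (T e ((T e)^[m] u) y - v) = u y - v :=
      sub_add_sub_cancel _ _ _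
    rw [← h4, ← h3]
  have hdif : ∀ y c, u (y + k • e c) - u y = (v1 (y + k • e c) - v1 y) +
      (T e w2 (y + k • e c) - T e w2 y) +
      ((T e)^[m + 1] w3 (y + k • e c) - (T e)^[m + 1] w3 y) := by
    intro y c
    have : u (y + k • e c) - u y = (u (y + k • e c) - v) - (u y - v) := by abel
    rw [this, hdec, hdec]
    abel
  have hpt : ∀ y c, ‖u (y + k • e c) - u y‖ ^ 4 ≤ 27 * (‖v1 (y + k • e c) - v1 y‖ ^ 4 +
      ‖T e w2 (y + k • e c) - T e w2 y‖ ^ 4 +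
      ‖(T e)^[m + 1] w3 (y + k • e c) - (T e)^[m + 1] w3 y‖ ^ 4) := by
    intro y c
    refine le_trans ?_ (pow_four_le _ _ _)
    refine pow_le_pow_left₀ (norm_nonneg _) ?_ 4
    rw [hdif y c]
    exact norm_add₃_le
  -- the three energies
  have hE1 : ∀ y c, ‖v1 (y + k • e c) - v1 y‖ ^ 4 ≤ 16 * C ^ 4 := by
    intro y c
    have h3 := T_sub_le e u C h1 y
    have h4 := T_sub_le e u C h1 (y + k • e c)
    have h5 : ‖v1 (y + k • e c) - v1 y‖ ≤ 2 * C := by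
      refine (norm_sub_le _ _).trans ?_
      linarith
    calc ‖v1 (y + k • e c) - v1 y‖ ^ 4 ≤ (2 * C) ^ 4 := pow_le_pow_left₀ (norm_nonneg _) h5 4
      _ = 16 * C ^ 4 := by ring
  have hE2 : ∑ c, ∑ y, ‖T e w2 (y + k • e c) - T e w2 y‖ ^ 4 ≤
      16 * (k : ℝ) ^ 2 * ((m : ℝ) * C) ^ 4 * Fintype.card G := by
    have h3 := l4_bound_vec e k 1 w2
    simp only [Nat.cast_one, one_mul, Function.iterate_one] at h3
    refine h3.trans ?_
    have h4 : ∑ y, ‖w2 y‖ ^ 4 ≤ ∑ _y : G, ((m : ℝ) * C) ^ 4 :=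
      Finset.sum_le_sum fun y _ =>
        pow_le_pow_left₀ (norm_nonneg _) (T_iter_sub_le e u C h1 m y) 4
    rw [Finset.sum_const, card_univ, nsmul_eq_mul] at h4
    have h5 : (0 : ℝ) ≤ 16 * (k : ℝ) ^ 2 := by positivity
    calc 16 * (k : ℝ) ^ 2 * ∑ y, ‖w2 y‖ ^ 4 ≤
        16 * (k : ℝ) ^ 2 * ((Fintype.card G : ℝ) * ((m : ℝ) * C) ^ 4) :=
          mul_le_mul_of_nonneg_left h4 h5
      _ = _ := by ring
  have hE3 : ((m : ℝ) + 1) *
      ∑ c, ∑ y, ‖(T e)^[m + 1] w3 (y + k • e c) - (T e)^[m + 1] w3 y‖ ^ 4 ≤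
      16 * (k : ℝ) ^ 2 * D * Fintype.card G := by
    have h3 := l4_bound_vec e k (m + 1) w3
    push_cast at h3
    refine h3.trans ?_
    have h4 : ∑ y, ‖w3 y‖ ^ 4 ≤ ∑ _y : G, D := Finset.sum_le_sum fun y _ => h2 y
    rw [Finset.sum_const, card_univ, nsmul_eq_mul] at h4
    have h5 : (0 : ℝ) ≤ 16 * (k : ℝ) ^ 2 := by positivity
    calc 16 * (k : ℝ) ^ 2 * ∑ y, ‖w3 y‖ ^ 4 ≤
        16 * (k : ℝ) ^ 2 * ((Fintype.card G : ℝ) * D) :=
          mul_le_mul_of_nonneg_left h4 h5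
      _ = _ := by ring
  -- summation
  set R : ℝ := 27 * (16 * C ^ 4 + 16 * (k : ℝ) ^ 2 * ((m : ℝ) * C) ^ 4 / Fintype.card ι +
        16 * (k : ℝ) ^ 2 * D / (((m : ℝ) + 1) * Fintype.card ι)) with hR
  have htot : ∑ c : ι, ∑ y : G, ‖u (y + k • e c) - u y‖ ^ 4 ≤ ∑ _c : ι, ∑ _y : G, R := by
    have h3 : ∑ c : ι, ∑ y : G, ‖u (y + k • e c) - u y‖ ^ 4 ≤
        27 * (∑ c : ι, ∑ y : G, ‖v1 (y + k • e c) - v1 y‖ ^ 4 +
        ∑ c : ι, ∑ y : G, ‖T e w2 (y + k • e c) - T e w2 y‖ ^ 4 +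
        ∑ c : ι, ∑ y : G, ‖(T e)^[m + 1] w3 (y + k • e c) - (T e)^[m + 1] w3 y‖ ^ 4) := by
      rw [← Finset.sum_add_distrib, ← Finset.sum_add_distrib, Finset.mul_sum]
      refine Finset.sum_le_sum fun c _ => ?_
      rw [← Finset.sum_add_distrib, ← Finset.sum_add_distrib, Finset.mul_sum]
      exact Finset.sum_le_sum fun y _ => hpt y c
    have h4 : ∑ c : ι, ∑ y : G, ‖v1 (y + k • e c) - v1 y‖ ^ 4 ≤
        (Fintype.card ι : ℝ) * (Fintype.card G * (16 * C ^ 4)) := by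
      calc ∑ c : ι, ∑ y : G, ‖v1 (y + k • e c) - v1 y‖ ^ 4 ≤
          ∑ _c : ι, ∑ _y : G, 16 * C ^ 4 :=
            Finset.sum_le_sum fun c _ => Finset.sum_le_sum fun y _ => hE1 y c
        _ = _ := by
            simp only [Finset.sum_const, card_univ, nsmul_eq_mul]
    have h5 : ∑ c, ∑ y, ‖(T e)^[m + 1] w3 (y + k • e c) - (T e)^[m + 1] w3 y‖ ^ 4 ≤
        16 * (k : ℝ) ^ 2 * D * Fintype.card G / ((m : ℝ) + 1) := by
      rw [le_div_iff₀ hm1]
      linarith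
    have h6 : ∑ _c : ι, ∑ _y : G, R = (Fintype.card ι : ℝ) * (Fintype.card G * R) := by
      simp only [Finset.sum_const, card_univ, nsmul_eq_mul]
    rw [h6]
    have h7 : (Fintype.card ι : ℝ) * (Fintype.card G * R) =
        27 * ((Fintype.card ι : ℝ) * (Fintype.card G * (16 * C ^ 4)) +
        16 * (k : ℝ) ^ 2 * ((m : ℝ) * C) ^ 4 * Fintype.card G +
        16 * (k : ℝ) ^ 2 * D * Fintype.card G / ((m : ℝ) + 1)) := by
      rw [hR]
      field_simp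
    rw [h7]
    linarith
  by_contra hcon
  push Not at hcon
  have hlt : ∑ _c : ι, ∑ _y : G, R < ∑ c : ι, ∑ y : G, ‖u (y + k • e c) - u y‖ ^ 4 := by
    refine Finset.sum_lt_sum_of_nonempty univ_nonempty fun c _ => ?_
    exact Finset.sum_lt_sum_of_nonempty ⟨0, mem_univ _⟩ fun y _ => hcon y c
  exact absurd htot (not_le.2 hlt)

end Pool.Agent.LqEmb
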