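import Mathlib
import Pool.Agent.LqEmb.Vec

set_option autoImplicit false
set_option linter.unusedSectionVars false

/-!
Coordinatewise limits of bounded families in `ℓ₄`.
-/

namespace Pool.Agent.LqEmb

open Finset Filter Topology

variable {α : Type}

/-- `v` is the coordinatewise limit of `φ` along the ultrafilter `U`. -/
def WL (U : Ultrafilter α) (φ : α → L4) (v : L4) : Prop :=
  ∀ i : ℕ, Tendsto (fun a => φ a i) (U : Filter α) (𝓝 (v i))

theorem WL.unique {U : Ultrafilter α} {φ : α → L4} {v w : L4} (hv : WL U φ v) (hw : WL U φ w) :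
    v = w := by
  apply lp.ext
  funext i
  exact tendsto_nhds_unique (hv i) (hw i)

theorem WL.sub {U : Ultrafilter α} {φ ψ : α → L4} {v w : L4} (hv : WL U φ v) (hw : WL U ψ w) :
    WL U (fun a => φ a - ψ a) (v - w) := by
  intro i
  simp only [lp.coeFn_sub, Pi.sub_apply]
  exact (hv i).sub (hw i)

theorem WL.const (U : Ultrafilter α) (v : L4) : WL U (fun _ => v) v := fun _ =>
  tendsto_const_nhds

theorem WL.congr {U : Ultrafilter α} {φ ψ : α → L4} {v : L4} (hv : WL U φ v)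
    (h : ∀ᶠ a in (U : Filter α), φ a = ψ a) : WL U ψ v := by
  intro i
  refine (hv i).congr' ?_
  filter_upwards [h] with a ha
  rw [ha]

theorem sum_le_norm (v : L4) (s : Finset ℕ) : ∑ i ∈ s, (v i) ^ 4 ≤ ‖v‖ ^ 4 :=
  sum_le_hasSum s (fun i _ => by positivity) (hasSum_four v)

theorem norm_pow_le_of_sum_le (v : L4) (B : ℝ) (h : ∀ s : Finset ℕ, ∑ i ∈ s, (v i) ^ 4 ≤ B) :
    ‖v‖ ^ 4 ≤ B :=
  le_of_tendsto' (hasSum_four v) h

theorem WL.norm_pow_le {U : Ultrafilter α} {φ : α → L4} {v : L4} (hv : WL U φ v) {B : ℝ}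
    (h : ∀ᶠ a in (U : Filter α), ‖φ a‖ ^ 4 ≤ B) : ‖v‖ ^ 4 ≤ B := by
  refine norm_pow_le_of_sum_le v B fun s => ?_
  have h1 : Tendsto (fun a => ∑ i ∈ s, (φ a i) ^ 4) (U : Filter α) (𝓝 (∑ i ∈ s, (v i) ^ 4)) :=
    tendsto_finsetSum _ fun i _ => (hv i).pow 4
  refine le_of_tendsto h1 ?_
  filter_upwards [h] with a ha
  exact (sum_le_norm (φ a) s).trans ha

theorem WL.norm_le {U : Ultrafilter α} {φ : α → L4} {v : L4} (hv : WL U φ v) {C : ℝ}
    (hC : 0 ≤ C) (h : ∀ᶠ a in (U : Filter α), ‖φ a‖ ≤ C) : ‖v‖ ≤ C := by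
  have h1 : ‖v‖ ^ 4 ≤ C ^ 4 := by
    refine hv.norm_pow_le ?_
    filter_upwards [h] with a ha
    exact pow_le_pow_left₀ (norm_nonneg _) ha 4
  exact le_of_pow_le_pow_left₀ (by norm_num) hC h1

theorem WL.exists {U : Ultrafilter α} {φ : α → L4} {C : ℝ}
    (h : ∀ᶠ a in (U : Filter α), ‖φ a‖ ≤ C) : ∃ v, WL U φ v := by
  have hcoord : ∀ (w : L4) (i : ℕ), |w i| ≤ ‖w‖ := by
    intro w i
    have := lp.norm_apply_le_norm (p := 4) (by norm_num) w i
    simpa using this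
  have hlim : ∀ i : ℕ, ∃ x : ℝ, Tendsto (fun a => φ a i) (U : Filter α) (𝓝 x) := by
    intro i
    have hcomp : IsCompact (Set.Icc (-C) C) := isCompact_Icc
    have hmem : ∀ᶠ a in (U : Filter α), φ a i ∈ Set.Icc (-C) C := by
      filter_upwards [h] with a ha
      have := (hcoord (φ a) i).trans ha
      exact abs_le.1 this
    obtain ⟨x, -, hx⟩ := hcomp.ultrafilter_le_nhds (U.map fun a => φ a i)
      (Filter.le_principal_iff.2 (Ultrafilter.mem_map.2 hmem))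
    exact ⟨x, hx⟩
  choose x hx using hlim
  have hmem : Memℓp x 4 := by
    refine memℓp_gen' (C := C ^ 4) fun s => ?_
    have h1 : Tendsto (fun a => ∑ i ∈ s, (φ a i) ^ 4) (U : Filter α) (𝓝 (∑ i ∈ s, (x i) ^ 4)) :=
      tendsto_finsetSum _ fun i _ => (hx i).pow 4
    have h2 : ∑ i ∈ s, (x i) ^ 4 ≤ C ^ 4 := by
      refine le_of_tendsto h1 ?_
      filter_upwards [h] with a ha
      exact (sum_le_norm (φ a) s).trans (pow_le_pow_left₀ (norm_nonneg _) ha 4)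
    refine le_trans (le_of_eq ?_) h2
    refine Finset.sum_congr rfl fun i _ => ?_
    rw [toReal_four, Real.rpow_natCast, Real.norm_eq_abs]
    exact Even.pow_abs (by decide) _
  exact ⟨⟨x, hmem⟩, hx⟩

/-- Truncations of `v` converge to `v`. -/
theorem exists_finite_approx (v : L4) {δ : ℝ} (hδ : 0 < δ) :
    ∃ s : Finset ℕ, ‖v - ∑ i ∈ s, lp.single 4 i (v i)‖ < δ := by
  have h := lp.hasSum_single (p := 4) (by norm_num) v
  have h1 := (Metric.tendsto_nhds.1 h δ hδ).exists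
  obtain ⟨s, hs⟩ := h1
  refine ⟨s, ?_⟩
  rw [dist_comm, dist_eq_norm] at hs
  exact hs

theorem trunc_coord (v : L4) (s : Finset ℕ) (j : ℕ) :
    (∑ i ∈ s, lp.single 4 i (v i) : L4) j = if j ∈ s then v j else 0 := by
  rw [lp.coeFn_sum, Finset.sum_apply]
  by_cases hj : j ∈ s
  · rw [if_pos hj, Finset.sum_eq_single_of_mem j hj]
    · simp
    · intro i _ hij
      simp [Ne.symm hij]
  · rw [if_neg hj]
    refine Finset.sum_eq_zero fun i hi => ?_
    have : j ≠ i := fun h => hj (h ▸ hi)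
    simp [this]

theorem norm_add_trunc (z v : L4) (s : Finset ℕ) :
    ‖z + ∑ i ∈ s, lp.single 4 i (v i)‖ ^ 4 ≤
      ‖z‖ ^ 4 + ∑ i ∈ s, ((z i + v i) ^ 4 - (z i) ^ 4) := by
  have h1 := hasSum_four (z + ∑ i ∈ s, lp.single 4 i (v i))
  have h2 := hasSum_four z
  have h3 : HasSum (fun i => if i ∈ s then ((z i + v i) ^ 4 - (z i) ^ 4) else 0)
      (∑ i ∈ s, ((z i + v i) ^ 4 - (z i) ^ 4)) := by
    have : HasSum (fun i => if i ∈ s then ((z i + v i) ^ 4 - (z i) ^ 4) else 0)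
        (∑ i ∈ s, if i ∈ s then ((z i + v i) ^ 4 - (z i) ^ 4) else 0) :=
      hasSum_sum_of_ne_finset_zero fun i hi => if_neg hi
    have h4 : (∑ i ∈ s, if i ∈ s then ((z i + v i) ^ 4 - (z i) ^ 4) else 0) =
        ∑ i ∈ s, ((z i + v i) ^ 4 - (z i) ^ 4) :=
      Finset.sum_congr rfl fun i hi => if_pos hi
    rwa [h4] at this
  refine hasSum_le (fun i => ?_) h1 (h2.add h3)
  rw [lp.coeFn_add, Pi.add_apply, trunc_coord]
  by_cases hi : i ∈ s
  · rw [if_pos hi, if_pos hi]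
    linarith
  · rw [if_neg hi, if_neg hi]
    simp

/-- The Brezis-Lieb type estimate in `ℓ₄`. -/
theorem brezis_lieb {U : Ultrafilter α} {z : α → L4} (hz : WL U z 0) (v : L4) {B : ℝ}
    (hB : ∀ ε > 0, ∀ᶠ a in (U : Filter α), ‖z a‖ ^ 4 ≤ B + ε) {ε : ℝ} (hε : 0 < ε) :
    ∀ᶠ a in (U : Filter α), ‖z a + v‖ ^ 4 ≤ B + ‖v‖ ^ 4 + ε := by
  have hB0 : 0 ≤ B := by
    refine le_of_forall_pos_le_add fun ε hε => ?_
    obtain ⟨a, ha⟩ := (hB ε hε).exists
    exact le_trans (by positivity) ha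
  set t : ℝ := Real.sqrt (Real.sqrt (B + ‖v‖ ^ 4 + ε / 2)) with ht
  have htpos : 0 ≤ B + ‖v‖ ^ 4 + ε / 2 := by positivity
  have ht4 : t ^ 4 = B + ‖v‖ ^ 4 + ε / 2 := by
    have h1 : t ^ 2 = Real.sqrt (B + ‖v‖ ^ 4 + ε / 2) := Real.sq_sqrt (Real.sqrt_nonneg _)
    calc t ^ 4 = (t ^ 2) ^ 2 := by ring
      _ = _ := by rw [h1, Real.sq_sqrt htpos]
  have ht0 : 0 ≤ t := Real.sqrt_nonneg _
  obtain ⟨δ, hδ, hδ2⟩ : ∃ δ > 0, (t + δ) ^ 4 ≤ t ^ 4 + ε / 2 := by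
    have hc : Tendsto (fun δ : ℝ => (t + δ) ^ 4) (𝓝 0) (𝓝 ((t + 0) ^ 4)) :=
      Continuous.tendsto (by fun_prop) 0
    rw [add_zero] at hc
    have h1 : ∀ᶠ δ in 𝓝 (0 : ℝ), (t + δ) ^ 4 < t ^ 4 + ε / 2 :=
      hc.eventually_lt_const (by linarith)
    have h2 : ∀ᶠ δ in 𝓝[>] (0 : ℝ), (t + δ) ^ 4 < t ^ 4 + ε / 2 :=
      h1.filter_mono nhdsWithin_le_nhds
    obtain ⟨δ, h3, h4⟩ := (h2.and self_mem_nhdsWithin).exists
    exact ⟨δ, h4, h3.le⟩
  obtain ⟨s, hs⟩ := exists_finite_approx v hδ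
  set vs : L4 := ∑ i ∈ s, lp.single 4 i (v i) with hvs
  have hlim : Tendsto (fun a => ∑ i ∈ s, ((z a i + v i) ^ 4 - (z a i) ^ 4)) (U : Filter α)
      (𝓝 (∑ i ∈ s, (v i) ^ 4)) := by
    refine tendsto_finsetSum _ fun i _ => ?_
    have h1 : Tendsto (fun a => z a i) (U : Filter α) (𝓝 0) := hz i
    have h2 := ((h1.add_const (v i)).pow 4).sub (h1.pow 4)
    simpa using h2
  have hev : ∀ᶠ a in (U : Filter α),
      ∑ i ∈ s, ((z a i + v i) ^ 4 - (z a i) ^ 4) < ‖v‖ ^ 4 + ε / 4 := by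
    refine hlim.eventually_lt_const ?_
    have := sum_le_norm v s
    linarith
  filter_upwards [hev, hB (ε / 4) (by linarith)] with a ha hb
  have h1 := norm_add_trunc (z a) v s
  have h2 : ‖z a + vs‖ ^ 4 ≤ t ^ 4 := by
    rw [ht4]
    linarith
  have h3 : ‖z a + vs‖ ≤ t := le_of_pow_le_pow_left₀ (by norm_num) ht0 h2
  have h4 : ‖z a + v‖ ≤ t + δ := by
    have : z a + v = (z a + vs) + (v - vs) := by abel
    rw [this]
    refine (norm_add_le _ _).trans ?_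
    linarith
  calc ‖z a + v‖ ^ 4 ≤ (t + δ) ^ 4 := pow_le_pow_left₀ (norm_nonneg _) h4 4
    _ ≤ t ^ 4 + ε / 2 := hδ2
    _ = B + ‖v‖ ^ 4 + ε := by rw [ht4]; ring

/-- The weak limit (junk value `0` if it does not exist). -/
noncomputable def wlim (U : Ultrafilter α) (φ : α → L4) : L4 :=
  open Classical in if h : ∃ v, WL U φ v then h.choose else 0

theorem wlim_spec {U : Ultrafilter α} {φ : α → L4} {C : ℝ}
    (h : ∀ᶠ a in (U : Filter α), ‖φ a‖ ≤ C) : WL U φ (wlim U φ) := by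
  have h1 : ∃ v, WL U φ v := WL.exists h
  unfold wlim
  rw [dif_pos h1]
  exact h1.choose_spec

end Pool.Agent.LqEmb
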