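import Mathlib
import Pool.Agent.LqEmb.WeakLim

set_option autoImplicit false
set_option linter.unusedSectionVars false

/-!
Iterated ultrafilter limits, indexed by finite words.
-/

namespace Pool.Agent.LqEmb

open Finset Filter Topology

/-- prepend a term to a sequence -/
def scons (n : ℕ) (s : ℕ → ℕ) : ℕ → ℕ
  | 0 => n
  | (j + 1) => s j

/-- use `s₁` for the first `j` terms, and then `s₂` -/
def sapp (j : ℕ) (s₁ s₂ : ℕ → ℕ) : ℕ → ℕ := fun i => if i < j then s₁ i else s₂ (i - j)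

theorem sapp_zero (s₁ s₂ : ℕ → ℕ) : sapp 0 s₁ s₂ = s₂ := by
  funext i
  simp [sapp]

theorem sapp_scons (j n : ℕ) (s₁ s₂ : ℕ → ℕ) :
    sapp (j + 1) (scons n s₁) s₂ = scons n (sapp j s₁ s₂) := by
  funext i
  cases i with
  | zero => simp [sapp, scons]
  | succ i => simp [sapp, scons]

/-- The iterated ultrafilters. -/
noncomputable def V : ℕ → Ultrafilter (ℕ → ℕ)
  | 0 => pure (fun _ => 0)
  | (k + 1) => Ultrafilter.bind (Filter.hyperfilter ℕ) (fun n => (V k).map (scons n))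

theorem ev_zero (P : (ℕ → ℕ) → Prop) :
    (∀ᶠ s in (V 0 : Filter (ℕ → ℕ)), P s) ↔ P (fun _ => 0) := by
  simp [V]

theorem ev_succ (k : ℕ) (P : (ℕ → ℕ) → Prop) :
    (∀ᶠ s in (V (k + 1) : Filter (ℕ → ℕ)), P s) ↔
      ∀ᶠ n in (Filter.hyperfilter ℕ : Filter ℕ), ∀ᶠ s in (V k : Filter (ℕ → ℕ)), P (scons n s) := by
  have h : (V (k + 1) : Filter (ℕ → ℕ)) =
      Filter.bind (Filter.hyperfilter ℕ : Filter ℕ)
        (fun n => (((V k).map (scons n) : Ultrafilter (ℕ → ℕ)) : Filter (ℕ → ℕ))) := rfl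
  rw [h, Filter.eventually_bind]
  rfl

theorem ev_add (j k : ℕ) (P : (ℕ → ℕ) → Prop) :
    (∀ᶠ s in (V (j + k) : Filter (ℕ → ℕ)), P s) ↔
      ∀ᶠ s₁ in (V j : Filter (ℕ → ℕ)), ∀ᶠ s₂ in (V k : Filter (ℕ → ℕ)), P (sapp j s₁ s₂) := by
  induction j generalizing P with
  | zero =>
    rw [ev_zero]
    simp only [sapp_zero, Nat.zero_add]
  | succ j ih =>
    rw [show j + 1 + k = (j + k) + 1 by ring, ev_succ, ev_succ]
    simp only [ih, sapp_scons]

theorem ev_avoid (k n : ℕ) :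
    ∀ᶠ s in (V k : Filter (ℕ → ℕ)), ∀ j < k, s j ≠ n := by
  induction k with
  | zero => exact Filter.Eventually.of_forall fun s j hj => absurd hj (Nat.not_lt_zero _)
  | succ k ih =>
    rw [ev_succ]
    have h1 : ∀ᶠ m in (Filter.hyperfilter ℕ : Filter ℕ), m ≠ n := by
      have h2 : ∀ᶠ m in (Filter.cofinite : Filter ℕ), m ≠ n :=
        Set.Finite.eventually_cofinite_notMem (Set.finite_singleton n)
      exact h2.filter_mono Filter.hyperfilter_le_cofinite
    filter_upwards [h1] with m hm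
    filter_upwards [ih] with s hs j hj
    cases j with
    | zero => exact hm
    | succ j => exact hs j (by omega)

theorem ev_inj (k : ℕ) :
    ∀ᶠ s in (V k : Filter (ℕ → ℕ)), Set.InjOn s (range k : Set ℕ) := by
  induction k with
  | zero => exact Filter.Eventually.of_forall fun s => by simp
  | succ k ih =>
    rw [ev_succ]
    refine Filter.Eventually.of_forall fun n => ?_
    filter_upwards [ih, ev_avoid k n] with s hs hn
    intro i hi j hj hij
    simp only [coe_range, Set.mem_Iio] at hi hj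
    cases i with
    | zero =>
      cases j with
      | zero => rfl
      | succ j => exact absurd hij.symm (hn j (by omega))
    | succ i =>
      cases j with
      | zero => exact absurd hij (hn i (by omega))
      | succ j =>
        have : s i = s j := hij
        have := hs (by simpa using hi) (by simpa using hj) this
        rw [this]

section Points

variable {A X : Type} [NormedAddCommGroup X]

/-- The point attached to the word `b 0, …, b (k-1)` and the indices `s 0, …, s (k-1)`. -/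
def pt (e : ℕ → A → X) (b : ℕ → A) (k : ℕ) (s : ℕ → ℕ) : X := ∑ j ∈ range k, e (s j) (b j)

theorem pt_app (e : ℕ → A → X) (b : ℕ → A) (j k : ℕ) (s₁ s₂ : ℕ → ℕ) :
    pt e b (j + k) (sapp j s₁ s₂) = pt e b j s₁ + pt e (fun i => b (i + j)) k s₂ := by
  unfold pt
  rw [Finset.sum_range_add]
  congr 1
  · refine Finset.sum_congr rfl fun i hi => ?_
    have := Finset.mem_range.1 hi
    simp [sapp, this]
  · refine Finset.sum_congr rfl fun i _ => ?_
    simp [sapp, add_comm]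

variable (e : ℕ → A → X) (f : X → L4)

/-- The iterated weak limit of `f` along a word. -/
noncomputable def F (b : ℕ → A) (k : ℕ) (x : X) : L4 :=
  wlim (V k) (fun s => f (x + pt e b k s))

variable {e f} {C : ℝ}

theorem f_bdd (hf : ∀ x y, ‖x - y‖ ≤ 20 → ‖f x - f y‖ ≤ C) (b : ℕ → A)
    (hb : ∀ j n, ‖e n (b j)‖ ≤ 20) (k : ℕ) (x : X) (s : ℕ → ℕ) :
    ‖f (x + pt e b k s)‖ ≤ ‖f x‖ + k * C := by
  induction k with
  | zero => simp [pt]
  | succ k ih =>
    have h1 : pt e b (k + 1) s = pt e b k s + e (s k) (b k) := by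
      unfold pt
      rw [Finset.sum_range_succ]
    have h2 : ‖f (x + pt e b (k + 1) s) - f (x + pt e b k s)‖ ≤ C := by
      apply hf
      rw [h1]
      have : x + (pt e b k s + e (s k) (b k)) - (x + pt e b k s) = e (s k) (b k) := by abel
      rw [this]
      exact hb k (s k)
    have h3 : f (x + pt e b (k + 1) s) =
        (f (x + pt e b (k + 1) s) - f (x + pt e b k s)) + f (x + pt e b k s) := by abel
    rw [h3]
    refine (norm_add_le _ _).trans ?_
    push_cast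
    linarith

theorem F_spec (hf : ∀ x y, ‖x - y‖ ≤ 20 → ‖f x - f y‖ ≤ C) (b : ℕ → A)
    (hb : ∀ j n, ‖e n (b j)‖ ≤ 20) (k : ℕ) (x : X) :
    WL (V k) (fun s => f (x + pt e b k s)) (F e f b k x) :=
  wlim_spec (Filter.Eventually.of_forall fun s => f_bdd hf b hb k x s)

theorem F_lip (hf : ∀ x y, ‖x - y‖ ≤ 20 → ‖f x - f y‖ ≤ C) (hC : 0 ≤ C) (b : ℕ → A)
    (hb : ∀ j n, ‖e n (b j)‖ ≤ 20) (k : ℕ) (x x' : X) (h : ‖x - x'‖ ≤ 20) :
    ‖F e f b k x - F e f b k x'‖ ≤ C := by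
  refine WL.norm_le ((F_spec hf b hb k x).sub (F_spec hf b hb k x')) hC ?_
  refine Filter.Eventually.of_forall fun s => hf _ _ ?_
  rwa [add_sub_add_right_eq_sub]

theorem F_app (hf : ∀ x y, ‖x - y‖ ≤ 20 → ‖f x - f y‖ ≤ C) (b : ℕ → A)
    (hb : ∀ j n, ‖e n (b j)‖ ≤ 20) (j k : ℕ) (x : X) :
    WL (V j) (fun s₁ => F e f (fun i => b (i + j)) k (x + pt e b j s₁)) (F e f b (j + k) x) := by
  have hb' : ∀ i n, ‖e n ((fun i => b (i + j)) i)‖ ≤ 20 := fun i n => hb (i + j) n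
  intro i
  rw [Metric.tendsto_nhds]
  intro ε hε
  have h1 := Metric.tendsto_nhds.1 (F_spec hf b hb (j + k) x i) (ε / 2) (by linarith)
  rw [ev_add] at h1
  filter_upwards [h1] with s₁ hs₁
  have h2 := F_spec hf (fun i => b (i + j)) hb' k (x + pt e b j s₁) i
  have h3 : Tendsto (fun s₂ => dist (f (x + pt e b j s₁ + pt e (fun i => b (i + j)) k s₂) i)
      (F e f b (j + k) x i)) (V k : Filter (ℕ → ℕ))
      (𝓝 (dist (F e f (fun i => b (i + j)) k (x + pt e b j s₁) i) (F e f b (j + k) x i))) :=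
    h2.dist tendsto_const_nhds
  refine lt_of_le_of_lt (le_of_tendsto h3 ?_) (by linarith : ε / 2 < ε)
  filter_upwards [hs₁] with s₂ hs₂
  rw [pt_app, ← add_assoc] at hs₂
  exact hs₂.le

theorem F_compare (hf : ∀ x y, ‖x - y‖ ≤ 20 → ‖f x - f y‖ ≤ C) (hC : 0 ≤ C) (b b' : ℕ → A)
    (hb : ∀ j n, ‖e n (b j)‖ ≤ 20) (hb' : ∀ j n, ‖e n (b' j)‖ ≤ 20) (k : ℕ) (x : X)
    (h : ∀ᶠ s in (V k : Filter (ℕ → ℕ)), ‖pt e b k s - pt e b' k s‖ ≤ 20) :
    ‖F e f b k x - F e f b' k x‖ ≤ C := by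
  refine WL.norm_le ((F_spec hf b hb k x).sub (F_spec hf b' hb' k x)) hC ?_
  filter_upwards [h] with s hs
  apply hf
  rwa [add_sub_add_left_eq_sub]

theorem F_near (hf : ∀ x y, ‖x - y‖ ≤ 20 → ‖f x - f y‖ ≤ C) (hC : 0 ≤ C) (b : ℕ → A)
    (hb : ∀ j n, ‖e n (b j)‖ ≤ 20) (k : ℕ) (x : X)
    (h : ∀ᶠ s in (V k : Filter (ℕ → ℕ)), ‖pt e b k s‖ ≤ 20) :
    ‖F e f b k x - f x‖ ≤ C := by
  refine WL.norm_le ((F_spec hf b hb k x).sub (WL.const (V k) (f x))) hC ?_
  filter_upwards [h] with s hs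
  apply hf
  rwa [add_sub_cancel_left]

theorem F_append (hf : ∀ x y, ‖x - y‖ ≤ 20 → ‖f x - f y‖ ≤ C) (hC : 0 ≤ C) (b : ℕ → A)
    (hb : ∀ j n, ‖e n (b j)‖ ≤ 20) (k s : ℕ) (x : X)
    (h : ∀ᶠ l in (V s : Filter (ℕ → ℕ)), ‖pt e (fun i => b (i + k)) s l‖ ≤ 20) :
    ‖F e f b (k + s) x - F e f b k x‖ ≤ C := by
  have hb' : ∀ i n, ‖e n ((fun i => b (i + k)) i)‖ ≤ 20 := fun i n => hb (i + k) n
  refine WL.norm_le ((F_app hf b hb k s x).sub (F_spec hf b hb k x)) hC ?_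
  refine Filter.Eventually.of_forall fun l => ?_
  exact F_near hf hC _ hb' s _ h

theorem F_delete (hf : ∀ x y, ‖x - y‖ ≤ 20 → ‖f x - f y‖ ≤ C) (hC : 0 ≤ C) (b : ℕ → A)
    (hb : ∀ j n, ‖e n (b j)‖ ≤ 20) (k s : ℕ) (x : X)
    (h : ∀ᶠ l in (V s : Filter (ℕ → ℕ)), ‖pt e b s l‖ ≤ 20) :
    ‖F e f b (s + k) x - F e f (fun i => b (i + s)) k x‖ ≤ C := by
  have hb' : ∀ i n, ‖e n ((fun i => b (i + s)) i)‖ ≤ 20 := fun i n => hb (i + s) n
  refine WL.norm_le ((F_app hf b hb s k x).sub (WL.const (V s) _)) hC ?_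
  filter_upwards [h] with l hl
  apply F_lip hf hC _ hb'
  rwa [add_sub_cancel_left]

/-- Moving from one word to another with the same phases up to a shift. -/
theorem F_move (hf : ∀ x y, ‖x - y‖ ≤ 20 → ‖f x - f y‖ ≤ C) (hC : 0 ≤ C) (b b' : ℕ → A)
    (hb : ∀ j n, ‖e n (b j)‖ ≤ 20) (hb' : ∀ j n, ‖e n (b' j)‖ ≤ 20) (k s : ℕ) (x : X)
    (h1 : ∀ᶠ l in (V s : Filter (ℕ → ℕ)), ‖pt e (fun i => b (i + k)) s l‖ ≤ 20)
    (h2 : ∀ᶠ l in (V s : Filter (ℕ → ℕ)), ‖pt e b s l‖ ≤ 20)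
    (h3 : ∀ᶠ l in (V k : Filter (ℕ → ℕ)), ‖pt e (fun i => b (i + s)) k l - pt e b' k l‖ ≤ 20) :
    ‖F e f b k x - F e f b' k x‖ ≤ 3 * C := by
  have hbs : ∀ i n, ‖e n ((fun i => b (i + s)) i)‖ ≤ 20 := fun i n => hb (i + s) n
  have e1 := F_append hf hC b hb k s x h1
  have e2 := F_delete hf hC b hb k s x h2
  have e3 := F_compare hf hC (fun i => b (i + s)) b' hbs hb' k x h3
  rw [add_comm s k] at e2
  have : F e f b k x - F e f b' k x = -(F e f b (k + s) x - F e f b k x) +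
      (F e f b (k + s) x - F e f (fun i => b (i + s)) k x) +
      (F e f (fun i => b (i + s)) k x - F e f b' k x) := by abel
  rw [this]
  refine norm_add₃_le.trans ?_
  rw [norm_neg]
  linarith

/-- Concentration: with `N` groups of `L` letters, the value of `f` is within `(N C⁴)^{1/4}` of
the iterated limit. -/
theorem conc (hf : ∀ x y, ‖x - y‖ ≤ 20 → ‖f x - f y‖ ≤ C) (hC : 0 ≤ C) (L : ℕ) (N : ℕ) :
    ∀ (b : ℕ → A) (_ : ∀ j n, ‖e n (b j)‖ ≤ 20)
      (_ : ∀ i, ∀ᶠ s in (V L : Filter (ℕ → ℕ)), ‖pt e (fun j => b (j + i)) L s‖ ≤ 10)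
      (x : X) (ε : ℝ) (_ : 0 < ε),
      ∀ᶠ s in (V (N * L) : Filter (ℕ → ℕ)),
        ‖f (x + pt e b (N * L) s) - F e f b (N * L) x‖ ^ 4 ≤ N * C ^ 4 + ε := by
  induction N with
  | zero =>
    intro b hb _ x ε hε
    rw [Nat.zero_mul]
    have h0 : F e f b 0 x = f x := by
      refine (F_spec hf b hb 0 x).unique ?_
      refine (WL.const (V 0) (f x)).congr ?_
      refine Filter.Eventually.of_forall fun s => ?_
      simp [pt]
    refine Filter.Eventually.of_forall fun s => ?_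
    rw [h0]
    simp [pt, hε.le]
  | succ N ih =>
    intro b hb hL x ε hε
    have hb' : ∀ i n, ‖e n ((fun i => b (i + L)) i)‖ ≤ 20 := fun i n => hb (i + L) n
    have hL' : ∀ i, ∀ᶠ s in (V L : Filter (ℕ → ℕ)),
        ‖pt e (fun j => (fun i => b (i + L)) (j + i)) L s‖ ≤ 10 := by
      intro i
      have := hL (i + L)
      simpa only [← add_assoc] using this
    have hL0 : ∀ᶠ s in (V L : Filter (ℕ → ℕ)), ‖pt e b L s‖ ≤ 10 := hL 0
    rw [show (N + 1) * L = L + N * L by ring, ev_add]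
    have hw := F_app hf b hb L (N * L) x
    filter_upwards [hL0] with s₁ hs₁
    set b' : ℕ → A := fun i => b (i + L) with hb'def
    set x₁ : X := x + pt e b L s₁ with hx₁
    set v : L4 := F e f b' (N * L) x₁ - F e f b (L + N * L) x with hv
    have hvC : ‖v‖ ≤ C := by
      refine WL.norm_le ((WL.const (V L) (F e f b' (N * L) x₁)).sub hw) hC ?_
      filter_upwards [hL0] with s₁' hs₁'
      refine F_lip hf hC _ hb' _ _ _ ?_
      rw [hx₁, add_sub_add_left_eq_sub]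
      refine (norm_sub_le _ _).trans ?_
      linarith
    have hz : WL (V (N * L)) (fun s₂ => f (x₁ + pt e b' (N * L) s₂) - F e f b' (N * L) x₁) 0 := by
      have := (F_spec hf b' hb' (N * L) x₁).sub (WL.const (V (N * L)) (F e f b' (N * L) x₁))
      rwa [sub_self] at this
    have hBL := brezis_lieb hz v (B := N * C ^ 4) (fun ε' hε' => ih b' hb' hL' x₁ ε' hε') hε
    filter_upwards [hBL] with s₂ hs₂
    rw [pt_app, ← add_assoc]
    have h1 : f (x + pt e b L s₁ + pt e (fun i => b (i + L)) (N * L) s₂) - F e f b (L + N * L) x =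
        f (x₁ + pt e b' (N * L) s₂) - F e f b' (N * L) x₁ + v := by
      rw [hv, hx₁, hb'def]
      abel
    rw [h1]
    refine hs₂.trans ?_
    have h2 : ‖v‖ ^ 4 ≤ C ^ 4 := pow_le_pow_left₀ (norm_nonneg _) hvC 4
    push_cast
    linarith

end Points

end Pool.Agent.LqEmb
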