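import Mathlib

set_option autoImplicit false
set_option linter.unusedSectionVars false

/-!
Rademacher functions and their fourth moments.
-/

namespace Pool.Agent.LqEmb

open Finset MeasureTheory

/-- bounded measurable functions -/
def Nice (g : ℝ → ℝ) : Prop := Measurable g ∧ ∃ C, ∀ x, |g x| ≤ C

theorem Nice.const (a : ℝ) : Nice fun _ => a := ⟨measurable_const, |a|, fun _ => le_rfl⟩

theorem Nice.add {f g : ℝ → ℝ} (hf : Nice f) (hg : Nice g) : Nice fun x => f x + g x := by
  obtain ⟨hf1, C, hC⟩ := hf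
  obtain ⟨hg1, D, hD⟩ := hg
  exact ⟨hf1.add hg1, C + D, fun x => (abs_add_le _ _).trans (add_le_add (hC x) (hD x))⟩

theorem Nice.mul {f g : ℝ → ℝ} (hf : Nice f) (hg : Nice g) : Nice fun x => f x * g x := by
  obtain ⟨hf1, C, hC⟩ := hf
  obtain ⟨hg1, D, hD⟩ := hg
  refine ⟨hf1.mul hg1, C * D, fun x => ?_⟩
  rw [abs_mul]
  exact mul_le_mul (hC x) (hD x) (abs_nonneg _) ((abs_nonneg _).trans (hC x))

theorem Nice.pow {f : ℝ → ℝ} (hf : Nice f) (n : ℕ) : Nice fun x => f x ^ n := by
  induction n with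
  | zero => simpa using Nice.const 1
  | succ n ih =>
    simp only [pow_succ]
    exact ih.mul hf

theorem Nice.sum {ι : Type} (s : Finset ι) (f : ι → ℝ → ℝ) (h : ∀ i ∈ s, Nice (f i)) :
    Nice fun x => ∑ i ∈ s, f i x := by
  classical
  induction s using Finset.induction_on with
  | empty => simpa using Nice.const 0
  | insert a s ha ih =>
    simp only [Finset.sum_insert ha]
    exact (h a (mem_insert_self _ _)).add (ih fun i hi => h i (mem_insert_of_mem hi))

theorem Nice.comp_mul {f : ℝ → ℝ} (hf : Nice f) (a : ℝ) : Nice fun x => f (a * x) := by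
  obtain ⟨hf1, C, hC⟩ := hf
  exact ⟨hf1.comp (measurable_const_mul a), C, fun x => hC _⟩

theorem Nice.intervalIntegrable {f : ℝ → ℝ} (hf : Nice f) (a b : ℝ) :
    IntervalIntegrable f volume a b := by
  obtain ⟨hf1, C, hC⟩ := hf
  rw [intervalIntegrable_iff]
  refine Measure.integrableOn_of_bounded (M := C) ?_ hf1.aestronglyMeasurable ?_
  · rw [Set.uIoc, Real.volume_Ioc]; exact ENNReal.ofReal_ne_top
  · exact Filter.Eventually.of_forall fun x => by simpa using hC x

/-- the basic square wave -/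
noncomputable def r0 (x : ℝ) : ℝ := if Even ⌊x⌋ then 1 else -1

theorem r0_sq (x : ℝ) : r0 x ^ 2 = 1 := by
  unfold r0
  split_ifs <;> norm_num

theorem r0_abs (x : ℝ) : |r0 x| = 1 := by
  unfold r0
  split_ifs <;> norm_num

theorem r0_add_int (x : ℝ) (k : ℤ) : r0 (x + k) = (if Even k then 1 else -1) * r0 x := by
  unfold r0
  have h : Even ⌊x + (k : ℝ)⌋ ↔ (Even ⌊x⌋ ↔ Even k) := by
    rw [Int.floor_add_intCast, Int.even_add]
  by_cases h1 : Even ⌊x⌋
  · by_cases h2 : Even k
    · rw [if_pos (h.2 (by simp [h1, h2])), if_pos h1, if_pos h2]; norm_num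
    · rw [if_neg (fun h3 => h2 ((h.1 h3).1 h1)), if_pos h1, if_neg h2]; norm_num
  · by_cases h2 : Even k
    · rw [if_neg (fun h3 => h1 ((h.1 h3).2 h2)), if_neg h1, if_pos h2]; norm_num
    · rw [if_pos (h.2 (by simp only [h1, h2])), if_neg h1, if_neg h2]; norm_num

theorem measurable_r0 : Measurable r0 := by
  unfold r0
  have h : MeasurableSet {x : ℝ | Even ⌊x⌋} :=
    Int.measurable_floor (MeasurableSet.of_discrete (s := {n : ℤ | Even n}))
  exact Measurable.ite h measurable_const measurable_const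

theorem nice_r0 : Nice r0 := ⟨measurable_r0, 1, fun x => (r0_abs x).le⟩

/-- the Rademacher functions -/
noncomputable def rad (n : ℕ) (x : ℝ) : ℝ := r0 ((2 : ℝ) ^ (n + 1) * x)

theorem nice_rad (n : ℕ) : Nice (rad n) := nice_r0.comp_mul _

theorem rad_sq (n : ℕ) (x : ℝ) : rad n x ^ 2 = 1 := r0_sq _

theorem rad_anti (n : ℕ) (x : ℝ) : rad n (x + (1 / 2) ^ (n + 1)) = -rad n x := by
  unfold rad
  have h : (2 : ℝ) ^ (n + 1) * (x + (1 / 2) ^ (n + 1)) = (2 : ℝ) ^ (n + 1) * x + ((1 : ℤ) : ℝ) := by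
    rw [mul_add, ← mul_pow]
    norm_num
  rw [h, r0_add_int]
  simp

theorem rad_periodic_fine {m n : ℕ} (h : m < n) (x : ℝ) :
    rad n (x + (1 / 2) ^ (m + 1)) = rad n x := by
  unfold rad
  obtain ⟨d, rfl⟩ : ∃ d, n = m + 1 + d := ⟨n - (m + 1), by omega⟩
  have h : (2 : ℝ) ^ (m + 1 + d + 1) * (x + (1 / 2) ^ (m + 1)) =
      (2 : ℝ) ^ (m + 1 + d + 1) * x + (((2 : ℤ) ^ (d + 1) : ℤ) : ℝ) := by
    rw [mul_add, show m + 1 + d + 1 = (m + 1) + (d + 1) by ring, pow_add (2 : ℝ) (m + 1) (d + 1)]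
    have : (2 : ℝ) ^ (m + 1) * 2 ^ (d + 1) * (1 / 2) ^ (m + 1) =
        ((2 : ℝ) * (1 / 2)) ^ (m + 1) * 2 ^ (d + 1) := by
      rw [mul_pow]; ring
    rw [this]
    push_cast
    norm_num
  rw [h, r0_add_int]
  have : Even ((2 : ℤ) ^ (d + 1)) := by
    rw [pow_succ]; exact Even.mul_left even_two _
  simp [this]

theorem rad_periodic_one (n : ℕ) : Function.Periodic (rad n) 1 := by
  intro x
  unfold rad
  have h : (2 : ℝ) ^ (n + 1) * (x + 1) = (2 : ℝ) ^ (n + 1) * x + (((2 : ℤ) ^ (n + 1) : ℤ) : ℝ) := by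
    push_cast
    ring
  rw [h, r0_add_int]
  have : Even ((2 : ℤ) ^ (n + 1)) := by
    rw [pow_succ]; exact Even.mul_left even_two _
  simp [this]

/-- Rademacher sums -/
noncomputable def rp (S : Finset ℕ) (β : ℕ → ℝ) (x : ℝ) : ℝ := ∑ n ∈ S, β n * rad n x

theorem nice_rp (S : Finset ℕ) (β : ℕ → ℝ) : Nice (rp S β) :=
  Nice.sum S (fun n x => β n * rad n x) fun n _ => (Nice.const (β n)).mul (nice_rad n)

theorem rp_periodic_one (S : Finset ℕ) (β : ℕ → ℝ) : Function.Periodic (rp S β) 1 := by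
  intro x
  unfold rp
  exact Finset.sum_congr rfl fun n _ => by rw [rad_periodic_one n x]

theorem rp_periodic_fine (m : ℕ) (S : Finset ℕ) (hS : ∀ n ∈ S, m < n) (β : ℕ → ℝ) (x : ℝ) :
    rp S β (x + (1 / 2) ^ (m + 1)) = rp S β x := by
  unfold rp
  exact Finset.sum_congr rfl fun n hn => by rw [rad_periodic_fine (hS n hn) x]

theorem integral_odd (m : ℕ) (Q : ℝ → ℝ) (hQ1 : Function.Periodic Q 1)
    (hQ2 : ∀ x, Q (x + (1 / 2) ^ (m + 1)) = Q x) :
    ∫ x in (0 : ℝ)..1, rad m x * Q x = 0 := by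
  set G : ℝ → ℝ := fun x => rad m x * Q x with hG
  have h1 : Function.Periodic G 1 := by
    intro x
    simp only [hG]
    rw [rad_periodic_one m x, hQ1 x]
  have h2 : ∀ x, G (x + (1 / 2) ^ (m + 1)) = -G x := by
    intro x
    simp only [hG]
    rw [rad_anti, hQ2]
    ring
  have h3 : ∫ x in (0 : ℝ)..1, G (x + (1 / 2) ^ (m + 1)) = ∫ x in (0 : ℝ)..1, G x := by
    rw [intervalIntegral.integral_comp_add_right]
    have := h1.intervalIntegral_add_eq (0 + (1 / 2) ^ (m + 1)) 0
    rw [zero_add (1 : ℝ)] at this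
    rw [← this]
    congr 1
    ring
  simp only [h2, intervalIntegral.integral_neg] at h3
  linarith

theorem rp_moments (S : Finset ℕ) (β : ℕ → ℝ) :
    (∫ x in (0 : ℝ)..1, (rp S β x) ^ 2 = ∑ n ∈ S, (β n) ^ 2) ∧
    (∫ x in (0 : ℝ)..1, (rp S β x) ^ 4 ≤ 3 * (∑ n ∈ S, (β n) ^ 2) ^ 2) ∧
    ((∑ n ∈ S, (β n) ^ 2) ^ 2 ≤ ∫ x in (0 : ℝ)..1, (rp S β x) ^ 4) := by
  induction S using Finset.induction_on_min with
  | empty => simp [rp]
  | insert a S hS ih =>
    obtain ⟨ih2, ih4, ih4'⟩ := ih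
    have ha : a ∉ S := fun h => lt_irrefl a (hS a h)
    have hsum : ∑ n ∈ insert a S, (β n) ^ 2 = (β a) ^ 2 + ∑ n ∈ S, (β n) ^ 2 :=
      Finset.sum_insert ha
    have hrp : ∀ x, rp (insert a S) β x = β a * rad a x + rp S β x := by
      intro x
      unfold rp
      exact Finset.sum_insert ha
    have hper := rp_periodic_fine a S hS β
    have hN := nice_rp S β
    -- second moment
    have e2 : ∀ x, (rp (insert a S) β x) ^ 2 =
        (rp S β x) ^ 2 + (β a) ^ 2 + rad a x * (2 * β a * rp S β x) := by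
      intro x
      rw [hrp]
      have := rad_sq a x
      linear_combination (β a) ^ 2 * this
    have e4 : ∀ x, (rp (insert a S) β x) ^ 4 =
        (rp S β x) ^ 4 + 6 * (β a) ^ 2 * (rp S β x) ^ 2 + (β a) ^ 4 +
          rad a x * (4 * β a * (rp S β x) ^ 3 + 4 * (β a) ^ 3 * rp S β x) := by
      intro x
      rw [hrp]
      have h := rad_sq a x
      have h4 : rad a x ^ 4 = 1 := by
        calc rad a x ^ 4 = (rad a x ^ 2) ^ 2 := by ring
          _ = 1 := by rw [h]; norm_num
      have h3 : rad a x ^ 3 = rad a x := by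
        calc rad a x ^ 3 = rad a x * rad a x ^ 2 := by ring
          _ = rad a x := by rw [h]; ring
      linear_combination (6 * (β a) ^ 2 * (rp S β x) ^ 2) * h + (β a) ^ 4 * h4 +
        4 * (β a) ^ 3 * rp S β x * h3
    have n1 : Nice fun x => rad a x * (2 * β a * rp S β x) :=
      (nice_rad a).mul ((Nice.const _).mul hN)
    have n2 : Nice fun x => rad a x * (4 * β a * (rp S β x) ^ 3 + 4 * (β a) ^ 3 * rp S β x) :=
      (nice_rad a).mul (((Nice.const _).mul (hN.pow 3)).add ((Nice.const _).mul hN))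
    have o1 : ∫ x in (0 : ℝ)..1, rad a x * (2 * β a * rp S β x) = 0 := by
      apply integral_odd a (fun x => 2 * β a * rp S β x)
      · intro x
        change 2 * β a * rp S β (x + 1) = 2 * β a * rp S β x
        rw [rp_periodic_one S β x]
      · intro x
        rw [hper x]
    have o2 : ∫ x in (0 : ℝ)..1,
        rad a x * (4 * β a * (rp S β x) ^ 3 + 4 * (β a) ^ 3 * rp S β x) = 0 := by
      apply integral_odd a (fun x => 4 * β a * (rp S β x) ^ 3 + 4 * (β a) ^ 3 * rp S β x)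
      · intro x
        change 4 * β a * (rp S β (x + 1)) ^ 3 + 4 * (β a) ^ 3 * rp S β (x + 1) =
          4 * β a * (rp S β x) ^ 3 + 4 * (β a) ^ 3 * rp S β x
        rw [rp_periodic_one S β x]
      · intro x
        rw [hper x]
    have i2 : ∫ x in (0 : ℝ)..1, (rp (insert a S) β x) ^ 2 =
        (∑ n ∈ S, (β n) ^ 2) + (β a) ^ 2 := by
      simp only [e2]
      rw [intervalIntegral.integral_add, intervalIntegral.integral_add, o1, ih2]
      · simp
      · exact (hN.pow 2).intervalIntegrable _ _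
      · exact (Nice.const _).intervalIntegrable _ _
      · exact ((hN.pow 2).add (Nice.const _)).intervalIntegrable _ _
      · exact n1.intervalIntegrable _ _
    have i4 : ∫ x in (0 : ℝ)..1, (rp (insert a S) β x) ^ 4 =
        (∫ x in (0 : ℝ)..1, (rp S β x) ^ 4) + 6 * (β a) ^ 2 * (∑ n ∈ S, (β n) ^ 2) +
          (β a) ^ 4 := by
      simp only [e4]
      rw [intervalIntegral.integral_add, intervalIntegral.integral_add,
        intervalIntegral.integral_add, intervalIntegral.integral_const_mul, o2, ih2]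
      · simp
      · exact (hN.pow 4).intervalIntegrable _ _
      · exact ((Nice.const _).mul (hN.pow 2)).intervalIntegrable _ _
      · exact ((hN.pow 4).add ((Nice.const _).mul (hN.pow 2))).intervalIntegrable _ _
      · exact (Nice.const _).intervalIntegrable _ _
      · exact (((hN.pow 4).add ((Nice.const _).mul (hN.pow 2))).add
          (Nice.const _)).intervalIntegrable _ _
      · exact n2.intervalIntegrable _ _
    rw [hsum, i2, i4]
    set B : ℝ := ∑ n ∈ S, (β n) ^ 2 with hB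
    have hB0 : 0 ≤ B := Finset.sum_nonneg fun _ _ => sq_nonneg _
    have hb0 : 0 ≤ (β a) ^ 2 := sq_nonneg _
    refine ⟨by ring, ?_, ?_⟩
    · nlinarith [mul_nonneg hb0 hb0]
    · nlinarith [mul_nonneg hb0 hB0]

end Pool.Agent.LqEmb
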