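import Mathlib
import Pool.Agent.LqEmb.Rad

set_option autoImplicit false
set_option linter.unusedSectionVars false

/-!
Disjoint blocks of Rademacher functions in `L₄[0,1]`.
-/

namespace Pool.Agent.LqEmb

open Finset MeasureTheory

variable (κ : Type) [Fintype κ] [Nonempty κ]

/-- index of a block -/
noncomputable def idx (c : κ) : ℕ := (Fintype.equivFin κ c : ℕ)

variable {κ}

noncomputable def hcell (n : ℕ) (c : κ) (t : ℝ) : ℝ :=
  if ⌊t⌋ = (idx κ c : ℤ) then rad n t else 0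

theorem nice_hcell (n : ℕ) (c : κ) : Nice (hcell n c) := by
  refine ⟨?_, 1, fun x => ?_⟩
  · unfold hcell
    refine Measurable.ite ?_ (nice_rad n).1 measurable_const
    exact Int.measurable_floor (MeasurableSet.of_discrete (s := {n : ℤ | n = (idx κ c : ℤ)}))
  · unfold hcell
    split_ifs
    · exact (r0_abs _).le
    · simp

/-- combination of blocks -/
noncomputable def hsum (S : Finset ℕ) (β : ℕ → κ → ℝ) (t : ℝ) : ℝ :=
  ∑ n ∈ S, ∑ c, β n c * hcell n c t

theorem nice_hsum (S : Finset ℕ) (β : ℕ → κ → ℝ) : Nice (hsum S β) :=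
  Nice.sum S (fun n t => ∑ c, β n c * hcell n c t) fun n _ =>
    Nice.sum univ (fun c t => β n c * hcell n c t) fun c _ => (Nice.const _).mul (nice_hcell n c)

theorem hsum_cell (S : Finset ℕ) (β : ℕ → κ → ℝ) (c : κ) (t : ℝ) (h : ⌊t⌋ = (idx κ c : ℤ)) :
    hsum S β t = rp S (fun n => β n c) t := by
  unfold hsum rp
  refine Finset.sum_congr rfl fun n _ => ?_
  rw [Finset.sum_eq_single c]
  · rw [hcell, if_pos h]
  · intro c' _ hc'
    rw [hcell, if_neg, mul_zero]
    intro h'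
    apply hc'
    have h2 : (idx κ c' : ℤ) = (idx κ c : ℤ) := by rw [← h', ← h]
    have h3 : idx κ c' = idx κ c := by exact_mod_cast h2
    exact (Fintype.equivFin κ).injective (Fin.ext h3)
  · intro h'
    exact absurd (mem_univ c) h'

theorem integral_cell (S : Finset ℕ) (β : ℕ → κ → ℝ) (c : κ) :
    ∫ t in ((idx κ c : ℕ) : ℝ)..(((idx κ c + 1 : ℕ)) : ℝ), (hsum S β t) ^ 4 =
      ∫ x in (0 : ℝ)..1, (rp S (fun n => β n c) x) ^ 4 := by
  have h1 : ∫ t in ((idx κ c : ℕ) : ℝ)..(((idx κ c + 1 : ℕ)) : ℝ), (hsum S β t) ^ 4 =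
      ∫ t in ((idx κ c : ℕ) : ℝ)..(((idx κ c + 1 : ℕ)) : ℝ), (rp S (fun n => β n c) t) ^ 4 := by
    have hle : ((idx κ c : ℕ) : ℝ) ≤ (((idx κ c + 1 : ℕ)) : ℝ) := by
      push_cast; linarith
    rw [intervalIntegral.integral_of_le hle, intervalIntegral.integral_of_le hle,
      integral_Ioc_eq_integral_Ioo, integral_Ioc_eq_integral_Ioo]
    refine setIntegral_congr_fun measurableSet_Ioo fun t ht => ?_
    have hfl : ⌊t⌋ = (idx κ c : ℤ) := by
      rw [Int.floor_eq_iff]
      obtain ⟨h1, h2⟩ := ht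
      push_cast at h1 h2 ⊢
      exact ⟨h1.le, h2⟩
    rw [hsum_cell S β c t hfl]
  rw [h1]
  have hper : Function.Periodic (fun t => (rp S (fun n => β n c) t) ^ 4) 1 := by
    intro x
    simp only []
    rw [rp_periodic_one S _ x]
  have := hper.intervalIntegral_add_eq ((idx κ c : ℕ) : ℝ) 0
  rw [zero_add] at this
  push_cast
  exact this

theorem integral_hsum (S : Finset ℕ) (β : ℕ → κ → ℝ) :
    ∫ x in (0 : ℝ)..1, (hsum S β ((Fintype.card κ : ℝ) * x)) ^ 4 =
      (Fintype.card κ : ℝ)⁻¹ * ∑ c, ∫ x in (0 : ℝ)..1, (rp S (fun n => β n c) x) ^ 4 := by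
  have hN : (Fintype.card κ : ℝ) ≠ 0 := by
    have : 0 < Fintype.card κ := Fintype.card_pos
    positivity
  rw [intervalIntegral.integral_comp_mul_left (fun t => (hsum S β t) ^ 4) hN, smul_eq_mul,
    mul_zero, mul_one]
  congr 1
  have h1 := intervalIntegral.sum_integral_adjacent_intervals (f := fun t => (hsum S β t) ^ 4)
    (μ := volume) (a := fun k : ℕ => (k : ℝ)) (n := Fintype.card κ)
    (fun k _ => ((nice_hsum S β).pow 4).intervalIntegrable _ _)
  simp only [Nat.cast_zero] at h1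
  rw [← h1, Finset.sum_range]
  rw [← Equiv.sum_comp (Fintype.equivFin κ)]
  exact Finset.sum_congr rfl fun c _ => integral_cell S β c

/-- The norm identity in `L₄`. -/
theorem norm_pow_four (f : ℝ → ℝ)
    (hf : MemLp f 4 ((volume : Measure ℝ).restrict (Set.Icc 0 1))) :
    ‖hf.toLp f‖ ^ 4 = ∫ x in (0 : ℝ)..1, (f x) ^ 4 := by
  have hnn : 0 ≤ ∫ x, (f x) ^ 4 ∂((volume : Measure ℝ).restrict (Set.Icc 0 1)) :=
    integral_nonneg fun x => by positivity
  have h1 : ∫ x, ‖f x‖ ^ (4 : ENNReal).toReal ∂((volume : Measure ℝ).restrict (Set.Icc 0 1)) =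
      ∫ x, (f x) ^ 4 ∂((volume : Measure ℝ).restrict (Set.Icc 0 1)) := by
    refine integral_congr_ae (Filter.Eventually.of_forall fun x => ?_)
    simp only []
    rw [show (4 : ENNReal).toReal = ((4 : ℕ) : ℝ) by simp, Real.rpow_natCast, Real.norm_eq_abs]
    exact Even.pow_abs (by decide) _
  rw [Lp.norm_toLp, hf.eLpNorm_eq_integral_rpow_norm (by norm_num) (by norm_num), h1,
    ENNReal.toReal_ofReal (by positivity), show (4 : ENNReal).toReal = ((4 : ℕ) : ℝ) by simp,
    Real.rpow_inv_natCast_pow hnn (by norm_num), intervalIntegral.integral_of_le zero_le_one,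
    integral_Icc_eq_integral_Ioc]

/-- The `L₄` space of the frozen statement. -/
abbrev X4 : Type := Lp ℝ 4 ((volume : Measure ℝ).restrict (Set.Icc 0 1))

theorem Nice.memLp {f : ℝ → ℝ} (hf : Nice f) :
    MemLp f 4 ((volume : Measure ℝ).restrict (Set.Icc 0 1)) := by
  obtain ⟨h1, C, hC⟩ := hf
  exact MemLp.of_bound h1.aestronglyMeasurable C
    (Filter.Eventually.of_forall fun x => by simpa using hC x)

/-- the block Rademacher functions on `[0,1]` -/
noncomputable def gfun (n : ℕ) (c : κ) (x : ℝ) : ℝ := hcell n c ((Fintype.card κ : ℝ) * x)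

theorem nice_gfun (n : ℕ) (c : κ) : Nice (gfun n c) := (nice_hcell n c).comp_mul _

noncomputable def G4 (n : ℕ) (c : κ) : X4 := (nice_gfun n c).memLp.toLp (gfun n c)

theorem combo_norm (S : Finset ℕ) (β : ℕ → κ → ℝ) :
    ‖∑ n ∈ S, ∑ c, β n c • G4 n c‖ ^ 4 =
      ∫ x in (0 : ℝ)..1, (hsum S β ((Fintype.card κ : ℝ) * x)) ^ 4 := by
  have hN : Nice fun x => hsum S β ((Fintype.card κ : ℝ) * x) := (nice_hsum S β).comp_mul _
  rw [← norm_pow_four _ hN.memLp]
  congr 2
  apply Lp.ext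
  refine (Lp.coeFn_fun_finsetSum S _).trans ?_
  refine Filter.EventuallyEq.trans ?_ hN.memLp.coeFn_toLp.symm
  have h1 : ∀ n ∈ S, ∀ᵐ x ∂((volume : Measure ℝ).restrict (Set.Icc 0 1)),
      (∑ c, β n c • G4 (κ := κ) n c : X4) x = ∑ c, β n c * gfun n c x := by
    intro n _
    have h2 : ∀ c ∈ (univ : Finset κ), ∀ᵐ x ∂((volume : Measure ℝ).restrict (Set.Icc 0 1)),
        (β n c • G4 (κ := κ) n c : X4) x = β n c * gfun n c x := by
      intro c _
      filter_upwards [Lp.coeFn_smul (β n c) (G4 (κ := κ) n c),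
        (nice_gfun (κ := κ) n c).memLp.coeFn_toLp] with x hx1 hx2
      rw [hx1, Pi.smul_apply, smul_eq_mul]
      congr 1
    have h3 := (Filter.eventually_all_finset univ).2 h2
    filter_upwards [Lp.coeFn_fun_finsetSum univ (fun c => β n c • G4 (κ := κ) n c), h3] with
      x hx1 hx2
    rw [hx1]
    exact Finset.sum_congr rfl fun c hc => hx2 c hc
  have h4 := (Filter.eventually_all_finset S).2 h1
  filter_upwards [h4] with x hx
  unfold hsum
  exact Finset.sum_congr rfl fun n hn => hx n hn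

theorem sys_upper (S : Finset ℕ) (β : ℕ → κ → ℝ) :
    ‖∑ n ∈ S, ∑ c, β n c • G4 n c‖ ^ 4 ≤
      (Fintype.card κ : ℝ)⁻¹ * ∑ c, 3 * (∑ n ∈ S, (β n c) ^ 2) ^ 2 := by
  rw [combo_norm, integral_hsum]
  refine mul_le_mul_of_nonneg_left ?_ (by positivity)
  exact Finset.sum_le_sum fun c _ => (rp_moments S fun n => β n c).2.1

theorem sys_lower (S : Finset ℕ) (β : ℕ → κ → ℝ) :
    (Fintype.card κ : ℝ)⁻¹ * ∑ c, (∑ n ∈ S, (β n c) ^ 2) ^ 2 ≤
      ‖∑ n ∈ S, ∑ c, β n c • G4 n c‖ ^ 4 := by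
  rw [combo_norm, integral_hsum]
  refine mul_le_mul_of_nonneg_left ?_ (by positivity)
  exact Finset.sum_le_sum fun c _ => (rp_moments S fun n => β n c).2.2

end Pool.Agent.LqEmb
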