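import Mathlib
import Pool.Agent.LqEmb.Iter
import Pool.Agent.LqEmb.Sys

set_option autoImplicit false
set_option linter.unusedSectionVars false

/-!
The words used in the proof: slowly rotating phases on a discrete torus.
-/

namespace Pool.Agent.LqEmb

open Finset MeasureTheory

section General

variable {κ : Type} [Fintype κ] [Nonempty κ]

/-- the vector attached to a letter and an index -/
noncomputable def ev (n : ℕ) (a : κ → ℝ) : X4 := ∑ c, a c • G4 n c

theorem pt_ev_eq (b : ℕ → κ → ℝ) (k : ℕ) (s : ℕ → ℕ) (hs : Set.InjOn s (range k : Set ℕ)) :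
    ∃ (S : Finset ℕ) (β : ℕ → κ → ℝ), pt ev b k s = ∑ n ∈ S, ∑ c, β n c • G4 n c ∧
      ∀ c, ∑ n ∈ S, (β n c) ^ 2 = ∑ j ∈ range k, (b j c) ^ 2 := by
  classical
  set inv : ℕ → ℕ := Function.invFunOn s (range k : Set ℕ) with hinv
  have hleft : ∀ j ∈ range k, inv (s j) = j := fun j hj =>
    hs.leftInvOn_invFunOn (by simpa using hj)
  refine ⟨(range k).image s, fun n => b (inv n), ?_, ?_⟩
  · rw [Finset.sum_image (by simpa using hs)]
    unfold pt ev
    refine Finset.sum_congr rfl fun j hj => ?_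
    simp only [hleft j hj]
  · intro c
    rw [Finset.sum_image (by simpa using hs)]
    refine Finset.sum_congr rfl fun j hj => ?_
    simp only [hleft j hj]

theorem pt_upper (b : ℕ → κ → ℝ) (k : ℕ) (s : ℕ → ℕ) (hs : Set.InjOn s (range k : Set ℕ))
    (A : ℝ) (hA : ∀ c, ∑ j ∈ range k, (b j c) ^ 2 ≤ A) :
    ‖pt ev b k s‖ ^ 4 ≤ 3 * A ^ 2 := by
  obtain ⟨S, β, h1, h2⟩ := pt_ev_eq b k s hs
  have hN : (0 : ℝ) < Fintype.card κ := by exact_mod_cast Fintype.card_pos
  rw [h1]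
  refine (sys_upper S β).trans ?_
  have h3 : ∑ c, 3 * (∑ n ∈ S, (β n c) ^ 2) ^ 2 ≤ ∑ _c : κ, 3 * A ^ 2 := by
    refine Finset.sum_le_sum fun c _ => ?_
    rw [h2 c]
    have h4 : 0 ≤ ∑ j ∈ range k, (b j c) ^ 2 := Finset.sum_nonneg fun _ _ => sq_nonneg _
    have := pow_le_pow_left₀ h4 (hA c) 2
    linarith
  rw [Finset.sum_const, card_univ, nsmul_eq_mul] at h3
  calc (Fintype.card κ : ℝ)⁻¹ * ∑ c, 3 * (∑ n ∈ S, (β n c) ^ 2) ^ 2 ≤
      (Fintype.card κ : ℝ)⁻¹ * (Fintype.card κ * (3 * A ^ 2)) :=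
        mul_le_mul_of_nonneg_left h3 (by positivity)
    _ = 3 * A ^ 2 := by
        rw [← mul_assoc, inv_mul_cancel₀ hN.ne', one_mul]

theorem pt_lower (b : ℕ → κ → ℝ) (k : ℕ) (s : ℕ → ℕ) (hs : Set.InjOn s (range k : Set ℕ)) :
    (Fintype.card κ : ℝ)⁻¹ * ∑ c, (∑ j ∈ range k, (b j c) ^ 2) ^ 2 ≤ ‖pt ev b k s‖ ^ 4 := by
  obtain ⟨S, β, h1, h2⟩ := pt_ev_eq b k s hs
  rw [h1]
  refine le_trans (le_of_eq ?_) (sys_lower S β)
  simp only [h2]

theorem pt_sub (b b' : ℕ → κ → ℝ) (k : ℕ) (s : ℕ → ℕ) :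
    pt ev b k s - pt ev b' k s = pt ev (fun j c => b j c - b' j c) k s := by
  unfold pt ev
  rw [← Finset.sum_sub_distrib]
  refine Finset.sum_congr rfl fun j _ => ?_
  rw [← Finset.sum_sub_distrib]
  refine Finset.sum_congr rfl fun c _ => ?_
  rw [sub_smul]

theorem norm_le_of_pow_four {x : ℝ} {B : ℝ} (hB : 0 ≤ B) (h : x ^ 4 ≤ B ^ 4) : x ≤ B :=
  le_of_pow_le_pow_left₀ (by norm_num) hB h

end General

section Phases

variable {K M : ℕ} [NeZero K]

/-- the basic character -/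
noncomputable def chi (z : ZMod K) : ℂ := ZMod.stdAddChar z

theorem chi_norm (z : ZMod K) : ‖chi z‖ = 1 := by
  unfold chi
  rw [ZMod.stdAddChar_apply]
  exact Circle.norm_coe _

theorem chi_add (z w : ZMod K) : chi (z + w) = chi z * chi w := by
  unfold chi
  exact AddChar.map_add_eq_mul _ _ _

theorem chi_one_sub : ‖chi (1 : ZMod K) - 1‖ ≤ 2 * Real.pi / K := by
  have h1 : chi (1 : ZMod K) = Complex.exp (Complex.I * ((2 * Real.pi / K : ℝ) : ℂ)) := by
    unfold chi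
    have := ZMod.stdAddChar_coe (N := K) 1
    rw [Int.cast_one] at this
    rw [this]
    congr 1
    push_cast
    ring
  rw [h1]
  refine Real.norm_exp_I_mul_ofReal_sub_one_le.trans (le_of_eq ?_)
  rw [Real.norm_eq_abs, abs_of_nonneg (by positivity)]

theorem chi_half {k : ℕ} (hk : K = 2 * k) (z : ZMod K) : chi (z + (k : ZMod K)) = -chi z := by
  have hk0 : (k : ℂ) ≠ 0 := by
    have := NeZero.ne K
    intro h
    have : k = 0 := by exact_mod_cast h
    omega
  have h1 : chi ((k : ℕ) : ZMod K) = -1 := by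
    unfold chi
    have := ZMod.stdAddChar_coe (N := K) (k : ℤ)
    rw [Int.cast_natCast] at this
    rw [this, ← Complex.exp_pi_mul_I]
    congr 1
    have : (K : ℂ) = 2 * k := by rw [hk]; push_cast; ring
    rw [this]
    push_cast
    field_simp
  rw [chi_add, h1]
  ring

/-- real or imaginary part -/
def rp2 (i : Bool) (z : ℂ) : ℝ := if i then z.re else z.im

theorem rp2_sq_le (i : Bool) (z : ℂ) : (rp2 i z) ^ 2 ≤ ‖z‖ ^ 2 := by
  have h : ‖z‖ ^ 2 = z.re ^ 2 + z.im ^ 2 := by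
    rw [Complex.sq_norm, Complex.normSq_apply]; ring
  unfold rp2
  cases i <;> simp [h] <;> positivity

theorem rp2_sum (z : ℂ) : (rp2 true z) ^ 2 + (rp2 false z) ^ 2 = ‖z‖ ^ 2 := by
  have h : ‖z‖ ^ 2 = z.re ^ 2 + z.im ^ 2 := by
    rw [Complex.sq_norm, Complex.normSq_apply]; ring
  simp [rp2, h]

theorem rp2_sub (i : Bool) (z w : ℂ) : rp2 i (z - w) = rp2 i z - rp2 i w := by
  unfold rp2
  cases i <;> simp

theorem rp2_neg (i : Bool) (z : ℂ) : rp2 i (-z) = -rp2 i z := by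
  unfold rp2
  cases i <;> simp

/-- the letter with given phases -/
noncomputable def letter (lam : ℝ) (p : Fin M → ZMod K) : Fin M × Bool → ℝ :=
  fun c => lam * rp2 c.2 (chi (p c.1))

theorem letter_sq_le (lam : ℝ) (p : Fin M → ZMod K) (c : Fin M × Bool) :
    (letter lam p c) ^ 2 ≤ lam ^ 2 := by
  unfold letter
  rw [mul_pow]
  have h1 := rp2_sq_le c.2 (chi (p c.1))
  rw [chi_norm, one_pow] at h1
  nlinarith [sq_nonneg lam]

/-- Two phases at distance at most one. -/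
def Close {K : ℕ} (z w : ZMod K) : Prop := z = w ∨ z = w + 1 ∨ w = z + 1

theorem chi_close {z w : ZMod K} (h : Close z w) : ‖chi z - chi w‖ ≤ 2 * Real.pi / K := by
  rcases h with h | h | h
  · rw [h, sub_self, norm_zero]; positivity
  · rw [h, chi_add]
    have : chi w * chi (1 : ZMod K) - chi w = chi w * (chi (1 : ZMod K) - 1) := by ring
    rw [this, norm_mul, chi_norm, one_mul]
    exact chi_one_sub
  · rw [h, chi_add]
    have : chi z - chi z * chi (1 : ZMod K) = -(chi z * (chi (1 : ZMod K) - 1)) := by ring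
    rw [this, norm_neg, norm_mul, chi_norm, one_mul]
    exact chi_one_sub

theorem letter_diff_sq_le (lam : ℝ) (p p' : Fin M → ZMod K) (c : Fin M × Bool)
    (h : Close (p c.1) (p' c.1)) :
    (letter lam p c - letter lam p' c) ^ 2 ≤ lam ^ 2 * (2 * Real.pi / K) ^ 2 := by
  unfold letter
  rw [← mul_sub, ← rp2_sub, mul_pow]
  have h1 := rp2_sq_le c.2 (chi (p c.1) - chi (p' c.1))
  have h2 := pow_le_pow_left₀ (norm_nonneg _) (chi_close h) 2
  exact mul_le_mul_of_nonneg_left (h1.trans h2) (sq_nonneg _)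

/-- the phases of the word attached to `y` -/
def phase (y : Fin M → ZMod K) (j : ℕ) : Fin M → ZMod K :=
  fun c => y c + ((j / K ^ (c : ℕ) : ℕ) : ZMod K)

/-- the word attached to `y` -/
noncomputable def word (lam : ℝ) (y : Fin M → ZMod K) (j : ℕ) : Fin M × Bool → ℝ :=
  letter lam (phase y j)

theorem phase_shift (y : Fin M → ZMod K) (j s : ℕ) (c : Fin M) :
    Close (phase y (j + s) c) (phase (fun c => y c + ((s / K ^ (c : ℕ) : ℕ) : ZMod K)) j c) := by
  unfold phase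
  have hK : 0 < K ^ (c : ℕ) := pow_pos (Nat.pos_of_ne_zero (NeZero.ne K)) _
  rw [Nat.add_div hK]
  split_ifs
  · right; left
    push_cast
    ring
  · left
    push_cast
    ring

theorem exists_shift (y y' : Fin M → ZMod K) :
    ∃ s < K ^ M, ∀ c, y c + ((s / K ^ (c : ℕ) : ℕ) : ZMod K) = y' c := by
  set d : Fin M → Fin K := fun c => ⟨(y' c - y c).val, ZMod.val_lt _⟩ with hd
  refine ⟨(finFunctionFinEquiv d : Fin (K ^ M)), (finFunctionFinEquiv d).2, fun c => ?_⟩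
  have h1 : (finFunctionFinEquiv.symm (finFunctionFinEquiv d)) c = d c := by
    rw [Equiv.symm_apply_apply]
  have h2 : ((finFunctionFinEquiv d : Fin (K ^ M)) : ℕ) / K ^ (c : ℕ) % K = (y' c - y c).val := by
    exact congrArg (fun z : Fin K => (z : ℕ)) h1
  have h3 : (((finFunctionFinEquiv d : Fin (K ^ M)) : ℕ) / K ^ (c : ℕ) : ℕ) =
      (((((finFunctionFinEquiv d : Fin (K ^ M)) : ℕ) / K ^ (c : ℕ) % K : ℕ)) : ZMod K) := by
    rw [ZMod.natCast_mod]
  rw [h3, h2, ZMod.natCast_zmod_val]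
  ring

end Phases

section Bounds

variable {K M : ℕ} [NeZero K] [NeZero M]

instance : Nonempty (Fin M × Bool) := ⟨(⟨0, Nat.pos_of_ne_zero (NeZero.ne M)⟩, true)⟩

theorem window_bound (lam : ℝ) (L : ℕ) (hlam : lam ^ 2 * L = 1) (y : Fin M → ZMod K) (i s : ℕ)
    (hs : s ≤ L) (l : ℕ → ℕ) (hl : Set.InjOn l (range s : Set ℕ)) :
    ‖pt ev (fun j => word lam y (j + i)) s l‖ ≤ 10 := by
  refine norm_le_of_pow_four (by norm_num) ?_
  refine (pt_upper _ s l hl 1 fun c => ?_).trans (by norm_num)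
  calc ∑ j ∈ range s, (word lam y (j + i) c) ^ 2 ≤ ∑ _j ∈ range s, lam ^ 2 :=
        Finset.sum_le_sum fun j _ => letter_sq_le lam _ c
    _ = s * lam ^ 2 := by rw [Finset.sum_const, card_range, nsmul_eq_mul]
    _ ≤ L * lam ^ 2 := by
        refine mul_le_mul_of_nonneg_right ?_ (sq_nonneg _)
        exact_mod_cast hs
    _ = 1 := by linarith

theorem single_bound (lam : ℝ) (L : ℕ) (hlam : lam ^ 2 * L = 1) (y : Fin M → ZMod K) (j n : ℕ) :
    ‖ev n (word lam y j)‖ ≤ 20 := by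
  have hL : 1 ≤ L := by
    rcases Nat.eq_zero_or_pos L with h | h
    · rw [h] at hlam; norm_num at hlam
    · exact h
  have h := window_bound lam L hlam y j 1 hL (fun _ => n) (by intro a ha b hb _; simp at ha hb; omega)
  simp only [pt, range_one, sum_singleton, zero_add] at h
  linarith

theorem close_bound (lam : ℝ) (L : ℕ) (hlam : lam ^ 2 * L = 1) (p p' : ℕ → Fin M → ZMod K)
    (h : ∀ j c, Close (p j c) (p' j c)) (l : ℕ → ℕ)
    (hl : Set.InjOn l (range (K ^ 2 * L) : Set ℕ)) :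
    ‖pt ev (fun j => letter lam (p j)) (K ^ 2 * L) l -
      pt ev (fun j => letter lam (p' j)) (K ^ 2 * L) l‖ ≤ 10 := by
  have hK : (0 : ℝ) < K := by
    exact_mod_cast Nat.pos_of_ne_zero (NeZero.ne K)
  rw [pt_sub]
  refine norm_le_of_pow_four (by norm_num) ?_
  refine (pt_upper _ _ l hl 40 fun c => ?_).trans (by norm_num)
  calc ∑ j ∈ range (K ^ 2 * L), (letter lam (p j) c - letter lam (p' j) c) ^ 2 ≤
        ∑ _j ∈ range (K ^ 2 * L), lam ^ 2 * (2 * Real.pi / K) ^ 2 :=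
        Finset.sum_le_sum fun j _ => letter_diff_sq_le lam _ _ c (h j c.1)
    _ = (lam ^ 2 * L) * (2 * Real.pi) ^ 2 := by
        rw [Finset.sum_const, card_range, nsmul_eq_mul]
        push_cast
        field_simp
    _ = (2 * Real.pi) ^ 2 := by rw [hlam, one_mul]
    _ ≤ 40 := by
        have h1 := Real.pi_lt_d2
        have h2 := Real.pi_pos
        nlinarith

theorem long_bound (lam : ℝ) (L : ℕ) (hlam : lam ^ 2 * L = 1) (y : Fin M → ZMod K) (c : Fin M)
    (k : ℕ) (hk : K = 2 * k) (l : ℕ → ℕ) (hl : Set.InjOn l (range (K ^ 2 * L) : Set ℕ)) :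
    4 * (K : ℝ) ^ 4 / M ≤ ‖pt ev (word lam (y + k • (Pi.single c (1 : ZMod K) : Fin M → ZMod K)))
      (K ^ 2 * L) l - pt ev (word lam y) (K ^ 2 * L) l‖ ^ 4 := by
  have hM : (0 : ℝ) < M := by
    exact_mod_cast Nat.pos_of_ne_zero (NeZero.ne M)
  rw [pt_sub]
  refine le_trans ?_ (pt_lower _ _ l hl)
  have hcard : Fintype.card (Fin M × Bool) = M * 2 := by simp
  rw [hcard]
  set β : ℕ → Fin M × Bool → ℝ := fun j c' =>
    word lam (y + k • (Pi.single c (1 : ZMod K) : Fin M → ZMod K)) j c' - word lam y j c' with hβ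
  have hβ2 : ∀ j i, β j (c, i) = -2 * lam * rp2 i (chi (phase y j c)) := by
    intro j i
    simp only [hβ, word, letter]
    have h1 : phase (y + k • (Pi.single c (1 : ZMod K) : Fin M → ZMod K)) j c =
        phase y j c + (k : ZMod K) := by
      have h2 : (k • (Pi.single c (1 : ZMod K) : Fin M → ZMod K)) c = (k : ZMod K) := by
        rw [Pi.smul_apply, Pi.single_eq_same, nsmul_eq_mul, mul_one]
      simp only [phase, Pi.add_apply, h2]
      ring
    rw [h1, chi_half hk, rp2_neg]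
    ring
  have hsum : (∑ j ∈ range (K ^ 2 * L), (β j (c, true)) ^ 2) +
      (∑ j ∈ range (K ^ 2 * L), (β j (c, false)) ^ 2) = 4 * (K : ℝ) ^ 2 := by
    rw [← Finset.sum_add_distrib]
    have h1 : ∀ j ∈ range (K ^ 2 * L), (β j (c, true)) ^ 2 + (β j (c, false)) ^ 2 =
        4 * lam ^ 2 := by
      intro j _
      rw [hβ2, hβ2]
      have h2 := rp2_sum (chi (phase y j c))
      rw [chi_norm] at h2
      nlinarith
    rw [Finset.sum_congr rfl h1, Finset.sum_const, card_range, nsmul_eq_mul]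
    push_cast
    calc (K : ℝ) ^ 2 * L * (4 * lam ^ 2) = 4 * (K : ℝ) ^ 2 * (lam ^ 2 * L) := by ring
      _ = _ := by rw [hlam, mul_one]
  have hle : (∑ j ∈ range (K ^ 2 * L), (β j (c, true)) ^ 2) ^ 2 +
      (∑ j ∈ range (K ^ 2 * L), (β j (c, false)) ^ 2) ^ 2 ≤
      ∑ c' : Fin M × Bool, (∑ j ∈ range (K ^ 2 * L), (β j c') ^ 2) ^ 2 := by
    have hne : (c, true) ≠ (c, false) := by simp
    have h1 := Finset.sum_le_sum_of_subset_of_nonneg
      (f := fun c' : Fin M × Bool => (∑ j ∈ range (K ^ 2 * L), (β j c') ^ 2) ^ 2)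
      (Finset.subset_univ {(c, true), (c, false)}) (fun _ _ _ => sq_nonneg _)
    rw [Finset.sum_pair hne] at h1
    exact h1
  set a := ∑ j ∈ range (K ^ 2 * L), (β j (c, true)) ^ 2 with ha
  set b := ∑ j ∈ range (K ^ 2 * L), (β j (c, false)) ^ 2 with hb
  have h8 : 8 * (K : ℝ) ^ 4 ≤ a ^ 2 + b ^ 2 := by
    have : 2 * (a ^ 2 + b ^ 2) ≥ (a + b) ^ 2 := by nlinarith [sq_nonneg (a - b)]
    rw [hsum] at this
    nlinarith
  have hinv : (0 : ℝ) ≤ (((M * 2 : ℕ)) : ℝ)⁻¹ := by positivity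
  calc 4 * (K : ℝ) ^ 4 / M = (((M * 2 : ℕ)) : ℝ)⁻¹ * (8 * (K : ℝ) ^ 4) := by
        push_cast
        field_simp
        ring
    _ ≤ (((M * 2 : ℕ)) : ℝ)⁻¹ *
        ∑ c' : Fin M × Bool, (∑ j ∈ range (K ^ 2 * L), (β j c') ^ 2) ^ 2 :=
        mul_le_mul_of_nonneg_left (h8.trans hle) hinv

end Bounds

end Pool.Agent.LqEmb
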