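import Mathlib
import Pool.Agent.LqEmb.Words

set_option autoImplicit false
set_option linter.unusedSectionVars false

/-!
The main estimate: a map from `L₄[0,1]` to `ℓ₄` which moves points at distance at most `20` by at
most `C` maps some pairs of points arbitrarily far apart to pairs at distance at most `5 C`.
-/

namespace Pool.Agent.LqEmb

open Finset MeasureTheory Filter

theorem core_param (f : X4 → L4) (C : ℝ) (hC : 0 < C)
    (hf : ∀ x y, ‖x - y‖ ≤ 20 → ‖f x - f y‖ ≤ C) (K M k m : ℕ) [NeZero K] [NeZero M]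
    (hk : K = 2 * k) :
    ∃ x y : X4, 4 * (K : ℝ) ^ 4 / M ≤ ‖x - y‖ ^ 4 ∧ ‖f x - f y‖ ^ 4 ≤
      27 * (16 * C ^ 4 + 16 * (k : ℝ) ^ 2 * ((m : ℝ) * C) ^ 4 / M +
        16 * (k : ℝ) ^ 2 * (8 * (((K : ℝ) ^ 2 + 1) * C ^ 4 + 81 * C ^ 4)) /
          (((m : ℝ) + 1) * M)) := by
  classical
  have hKpos : 0 < K := Nat.pos_of_ne_zero (NeZero.ne K)
  set L : ℕ := K ^ M with hL
  have hLpos : 0 < L := pow_pos hKpos M
  set lam : ℝ := 1 / Real.sqrt L with hlamdef
  have hlam : lam ^ 2 * L = 1 := by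
    have h1 : (0 : ℝ) < L := by exact_mod_cast hLpos
    rw [hlamdef, div_pow, Real.sq_sqrt h1.le, one_pow, one_div, inv_mul_cancel₀ h1.ne']
  -- words
  set b : (Fin M → ZMod K) → ℕ → Fin M × Bool → ℝ := fun y => word lam y with hb
  have hsmall : ∀ y j n, ‖ev n (b y j)‖ ≤ 20 := fun y j n => single_bound lam L hlam y j n
  have hwin : ∀ y i s, s ≤ L → ∀ᶠ l in (V s : Filter (ℕ → ℕ)),
      ‖pt ev (fun j => b y (j + i)) s l‖ ≤ 10 := by
    intro y i s hs
    filter_upwards [ev_inj s] with l hl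
    exact window_bound lam L hlam y i s hs l hl
  -- the iterated limits are close to each other
  have hmove : ∀ y y', ‖F ev f (b y) (K ^ 2 * L) 0 - F ev f (b y') (K ^ 2 * L) 0‖ ≤ 3 * C := by
    intro y y'
    obtain ⟨s, hsL, hs⟩ := exists_shift y y'
    refine F_move hf hC.le (b y) (b y') (hsmall y) (hsmall y') (K ^ 2 * L) s 0 ?_ ?_ ?_
    · filter_upwards [hwin y (K ^ 2 * L) s hsL.le] with l hl
      linarith
    · have h1 : ∀ᶠ l in (V s : Filter (ℕ → ℕ)), ‖pt ev (b y) s l‖ ≤ 10 := hwin y 0 s hsL.le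
      filter_upwards [h1] with l hl
      linarith
    · filter_upwards [ev_inj (K ^ 2 * L)] with l hl
      have h1 := close_bound lam L hlam (fun j => phase y (j + s)) (fun j => phase y' j) (by
        intro j c
        have h2 := phase_shift y j s c
        have h3 : (fun c => y c + ((s / K ^ (c : ℕ) : ℕ) : ZMod K)) = y' := funext hs
        rw [h3] at h2
        exact h2) l hl
      have h4 : (fun j => letter lam ((fun j => phase y' j) j)) = b y' := rfl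
      have h5 : (fun j => letter lam ((fun j => phase y (j + s)) j)) = fun i => b y (i + s) := rfl
      rw [h4, h5] at h1
      linarith
  -- choice of indices
  have hconc : ∀ᶠ l in (V (K ^ 2 * L) : Filter (ℕ → ℕ)), ∀ y : Fin M → ZMod K,
      ‖f (0 + pt ev (b y) (K ^ 2 * L) l) - F ev f (b y) (K ^ 2 * L) 0‖ ^ 4 ≤
        ((K ^ 2 : ℕ) : ℝ) * C ^ 4 + C ^ 4 := by
    rw [Filter.eventually_all]
    intro y
    exact conc hf hC.le L (K ^ 2) (b y) (hsmall y) (fun i => hwin y i L le_rfl) 0 (C ^ 4)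
      (by positivity)
  obtain ⟨l, hl1, hl2⟩ := (hconc.and (ev_inj (K ^ 2 * L))).exists
  set u : (Fin M → ZMod K) → L4 := fun y => f (0 + pt ev (b y) (K ^ 2 * L) l) with hu
  set v : L4 := F ev f (b 0) (K ^ 2 * L) 0 with hv
  have h1 : ∀ y, ∀ B : Finset (Fin M),
      ‖u (y + ∑ c ∈ B, (Pi.single c (1 : ZMod K) : Fin M → ZMod K)) - u y‖ ≤ C := by
    intro y B
    apply hf
    rw [add_sub_add_left_eq_sub]
    have h3 := close_bound lam L hlam
      (fun j => phase (y + ∑ c ∈ B, (Pi.single c (1 : ZMod K) : Fin M → ZMod K)) j)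
      (fun j => phase y j) (by
        intro j c
        have h4 : (∑ c' ∈ B, (Pi.single c' (1 : ZMod K) : Fin M → ZMod K)) c =
            if c ∈ B then 1 else 0 := by
          rw [Finset.sum_apply, Finset.sum_pi_single]
        simp only [phase, Pi.add_apply, h4]
        split_ifs
        · right; left
          ring
        · left
          ring) l hl2
    exact h3.trans (by norm_num)
  have h2 : ∀ y, ‖u y - v‖ ^ 4 ≤ 8 * (((K : ℝ) ^ 2 + 1) * C ^ 4 + 81 * C ^ 4) := by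
    intro y
    have h3 := hl1 y
    have h4 := hmove y 0
    set a : ℝ := ‖f (0 + pt ev (b y) (K ^ 2 * L) l) - F ev f (b y) (K ^ 2 * L) 0‖ with ha
    have ha0 : 0 ≤ a := norm_nonneg _
    have h5 : ‖u y - v‖ ≤ a + 3 * C := by
      have : u y - v = (f (0 + pt ev (b y) (K ^ 2 * L) l) - F ev f (b y) (K ^ 2 * L) 0) +
          (F ev f (b y) (K ^ 2 * L) 0 - F ev f (b 0) (K ^ 2 * L) 0) := by
        rw [hu, hv]
        simp only []
        abel
      rw [this]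
      refine (norm_add_le _ _).trans ?_
      linarith
    have h6 : ‖u y - v‖ ^ 4 ≤ (a + 3 * C) ^ 4 := pow_le_pow_left₀ (norm_nonneg _) h5 4
    have h7 : (a + 3 * C) ^ 4 ≤ 8 * (a ^ 4 + (3 * C) ^ 4) := by
      have e1 : (a + 3 * C) ^ 2 ≤ 2 * (a ^ 2 + (3 * C) ^ 2) := by
        nlinarith [sq_nonneg (a - 3 * C)]
      have e2 : ((a + 3 * C) ^ 2) ^ 2 ≤ (2 * (a ^ 2 + (3 * C) ^ 2)) ^ 2 :=
        pow_le_pow_left₀ (sq_nonneg _) e1 2
      have e3 : (a ^ 2 + (3 * C) ^ 2) ^ 2 ≤ 2 * (a ^ 4 + (3 * C) ^ 4) := by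
        nlinarith [sq_nonneg (a ^ 2 - (3 * C) ^ 2)]
      nlinarith
    have h8 : (3 * C) ^ 4 = 81 * C ^ 4 := by ring
    push_cast at h3
    rw [h8] at h7
    refine h6.trans (h7.trans ?_)
    linarith
  obtain ⟨y, c, hyc⟩ := fin_ineq (fun c : Fin M => (Pi.single c (1 : ZMod K) : Fin M → ZMod K))
    k m u v C _ h1 h2
  refine ⟨0 + pt ev (b (y + k • (Pi.single c (1 : ZMod K) : Fin M → ZMod K))) (K ^ 2 * L) l,
    0 + pt ev (b y) (K ^ 2 * L) l, ?_, ?_⟩
  · rw [add_sub_add_left_eq_sub]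
    exact long_bound lam L hlam y c k hk l hl2
  · rw [Fintype.card_fin] at hyc
    exact hyc

/-- The main estimate. -/
theorem core (f : X4 → L4) (C : ℝ) (hC : 0 < C)
    (hf : ∀ x y, ‖x - y‖ ≤ 20 → ‖f x - f y‖ ≤ C) (R : ℕ) (hR : 1 ≤ R) :
    ∃ x y : X4, (R : ℝ) ≤ ‖x - y‖ ∧ ‖f x - f y‖ ≤ 5 * C := by
  set m : ℕ := 1512 * R ^ 4 with hm
  set q : ℕ := 6 * R * m ^ 2 with hq
  have hm1 : 1 ≤ m := by
    have : 1 ≤ R ^ 4 := Nat.one_le_pow _ _ hR
    omega
  have hq1 : 6 ≤ q := by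
    have : 1 ≤ R * m ^ 2 := Nat.mul_pos hR (pow_pos hm1 2)
    calc 6 = 6 * 1 := by norm_num
      _ ≤ 6 * (R * m ^ 2) := Nat.mul_le_mul_left 6 this
      _ = q := by rw [hq]; ring
  have : NeZero (2 * (R * q)) := ⟨by positivity⟩
  have : NeZero (16 * q ^ 4) := ⟨by positivity⟩
  obtain ⟨x, y, h1, h2⟩ := core_param f C hC hf (2 * (R * q)) (16 * q ^ 4) (R * q) m rfl
  have hRr : (1 : ℝ) ≤ R := by exact_mod_cast hR
  have hqr : (6 : ℝ) ≤ q := by exact_mod_cast hq1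
  have hmr : (1 : ℝ) ≤ m := by exact_mod_cast hm1
  have hq0 : (0 : ℝ) < q := by linarith
  have hR0 : (0 : ℝ) < R := by linarith
  have hm0 : (0 : ℝ) < m := by linarith
  refine ⟨x, y, ?_, ?_⟩
  · refine norm_le_of_pow_four (norm_nonneg _) ?_
    refine le_trans ?_ h1
    push_cast
    have : 4 * (2 * ((R : ℝ) * q)) ^ 4 / (16 * q ^ 4) = 4 * (R : ℝ) ^ 4 := by
      field_simp
      ring
    rw [this]
    have : (0 : ℝ) ≤ (R : ℝ) ^ 4 := by positivity
    linarith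
  · refine norm_le_of_pow_four (by positivity) ?_
    refine h2.trans ?_
    push_cast
    have hC4 : 0 < C ^ 4 := by positivity
    have t1 : 16 * ((R : ℝ) * q) ^ 2 * (m * C) ^ 4 / (16 * q ^ 4) ≤ C ^ 4 / 36 := by
      have hqm : (q : ℝ) = 6 * R * m ^ 2 := by rw [hq]; push_cast; ring
      have : 16 * ((R : ℝ) * q) ^ 2 * (m * C) ^ 4 / (16 * q ^ 4) =
          (R : ℝ) ^ 2 * m ^ 4 / q ^ 2 * C ^ 4 := by
        field_simp
      rw [this, hqm]
      have : (R : ℝ) ^ 2 * m ^ 4 / (6 * R * m ^ 2) ^ 2 = 1 / 36 := by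
        field_simp
        norm_num
      rw [this]
      linarith
    have t2 : 16 * ((R : ℝ) * q) ^ 2 * (8 * (((2 * ((R : ℝ) * q)) ^ 2 + 1) * C ^ 4 + 81 * C ^ 4)) /
        ((m + 1) * (16 * q ^ 4)) ≤ C ^ 4 / 27 := by
      have e1 : 16 * ((R : ℝ) * q) ^ 2 *
          (8 * (((2 * ((R : ℝ) * q)) ^ 2 + 1) * C ^ 4 + 81 * C ^ 4)) /
          ((m + 1) * (16 * q ^ 4)) =
          8 * R ^ 2 * (4 * R ^ 2 * q ^ 2 + 82) / ((m + 1) * q ^ 2) * C ^ 4 := by
        field_simp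
        ring
      rw [e1]
      have hmm : (m : ℝ) = 1512 * R ^ 4 := by rw [hm]; push_cast; ring
      have e2 : 8 * (R : ℝ) ^ 2 * (4 * R ^ 2 * q ^ 2 + 82) / ((m + 1) * q ^ 2) ≤ 1 / 27 := by
        rw [div_le_iff₀ (by positivity)]
        have e3 : (82 : ℝ) ≤ 3 * R ^ 2 * q ^ 2 := by
          have : (36 : ℝ) ≤ q ^ 2 := by nlinarith
          have : (1 : ℝ) ≤ R ^ 2 := by nlinarith
          nlinarith
        have e4 : 8 * (R : ℝ) ^ 2 * (4 * R ^ 2 * q ^ 2 + 82) ≤ 56 * R ^ 4 * q ^ 2 := by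
          have : 0 ≤ 8 * (R : ℝ) ^ 2 := by positivity
          nlinarith [mul_le_mul_of_nonneg_left e3 this]
        refine e4.trans ?_
        rw [hmm]
        have : 0 ≤ (q : ℝ) ^ 2 := by positivity
        nlinarith
      calc 8 * (R : ℝ) ^ 2 * (4 * R ^ 2 * q ^ 2 + 82) / ((m + 1) * q ^ 2) * C ^ 4 ≤
          1 / 27 * C ^ 4 := mul_le_mul_of_nonneg_right e2 hC4.le
        _ = C ^ 4 / 27 := by ring
    have t3 : (5 * C) ^ 4 = 625 * C ^ 4 := by ring
    rw [t3]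
    linarith

end Pool.Agent.LqEmb
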